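import Pool.Agent.Lib.THU.EC.Basic

set_option autoImplicit false

/-!
Compactness of normalised quasiconformal maps, and invertibility of their derivatives.
-/

namespace Pool.Agent.Lib.THU.EC

open MeasureTheory Set Metric Filter Topology
open scoped ENNReal NNReal

namespace CPT

lemma tlu_iff {ι : Type} {l : Filter ι} {F : ι → ℂ → ℂ} {f : ℂ → ℂ} (hf : Continuous f) :
    TendstoLocallyUniformly F f l ↔
      ∀ x, Tendsto (fun y : ι × ℂ => F y.1 y.2) (l ×ˢ 𝓝 x) (𝓝 (f x)) := by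
  rw [tendstoLocallyUniformly_iff_forall_tendsto]
  refine forall_congr' fun x => ?_
  have h1 : Tendsto (fun y : ι × ℂ => f y.2) (l ×ˢ 𝓝 x) (𝓝 (f x)) :=
    (hf.tendsto x).comp tendsto_snd
  exact ⟨fun h => h1.congr_uniformity h,
    fun h => (h1.prodMk_nhds h).mono_right (nhds_le_uniformity _)⟩

lemma lim (hB : St_BND) (hE : St_EQC) {ι : Type} (U : Ultrafilter ι) {K : ℝ≥0}
    (H : ι → ℂ ≃ₜ ℂ) (h0 : ∀ i, H i 0 = 0) (h1 : ∀ i, H i 1 = 1) (hq : ∀ i, QC K (H i)) :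
    ∃ f : ℂ → ℂ, Continuous f ∧ TendstoLocallyUniformly (fun i => (H i : ℂ → ℂ)) f U := by
  have pt : ∀ z, ∃ w, Tendsto (fun i => H i z) U (𝓝 w) := fun z => by
    obtain ⟨R, hR⟩ := hB K ‖z‖
    obtain ⟨w, -, hw⟩ := (isCompact_closedBall (0 : ℂ) R).ultrafilter_le_nhds
      (U.map fun i => H i z) (le_principal_iff.2 (mem_map.2 (univ_mem' fun i =>
        mem_closedBall_zero_iff.2 (hR (H i) (h0 i) (h1 i) (hq i).2 z le_rfl))))
    exact ⟨w, hw⟩
  choose f hf using pt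
  have eq : ∀ (x : ℂ) (ε : ℝ), 0 < ε → ∃ δ > 0, ∀ y, ‖y - x‖ ≤ δ →
      ‖f y - f x‖ ≤ ε ∧ ∀ i, ‖H i y - H i x‖ ≤ ε := fun x ε hε => by
    obtain ⟨δ, hδ, h⟩ := hE K ‖x‖ ε hε
    refine ⟨δ, hδ, fun y hy => ?_⟩
    have := fun i => h (H i) (h0 i) (h1 i) (hq i) x y le_rfl hy
    exact ⟨le_of_tendsto' ((hf y).sub (hf x)).norm this, this⟩
  refine ⟨f, Metric.continuous_iff.2 fun x ε hε => ?_, Metric.tendstoLocallyUniformly_iff.2
    fun ε hε x => ?_⟩
  · obtain ⟨δ, hδ, h⟩ := eq x (ε / 2) (half_pos hε)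
    refine ⟨δ, hδ, fun y hy => ?_⟩
    rw [dist_eq_norm] at hy ⊢
    linarith [(h y hy.le).1]
  · obtain ⟨δ, hδ, h⟩ := eq x (ε / 3) (by positivity)
    refine ⟨closedBall x δ, closedBall_mem_nhds x hδ, ?_⟩
    filter_upwards [Metric.tendsto_nhds.1 (hf x) (ε / 3) (by positivity)] with i hi y hy
    obtain ⟨a, b⟩ := h y (mem_closedBall_iff_norm.1 hy)
    have := dist_triangle4 (f y) (f x) (H i x) (H i y)
    rw [dist_comm (f x), dist_comm (H i x) (H i y), dist_eq_norm (f y) (f x),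
      dist_eq_norm (H i y) (H i x)] at this
    linarith [b i]

/-- affine homeomorphisms -/
noncomputable def aff (a b : ℂ) (ha : a ≠ 0) : ℂ ≃ₜ ℂ :=
  (Homeomorph.mulLeft₀ a ha).trans (Homeomorph.addRight b)

lemma aff_apply (a b : ℂ) (ha : a ≠ 0) (z : ℂ) : aff a b ha z = a * z + b := rfl

lemma aff_symm (a b : ℂ) (ha : a ≠ 0) (z : ℂ) : (aff a b ha).symm z = (z - b) / a := by
  rw [Homeomorph.symm_apply_eq, aff_apply]; field_simp; ring

lemma qc_left (hQ : St_QC) {K : ℝ≥0} {h : ℂ ≃ₜ ℂ} (H : QC K h) (a b : ℂ) (ha : a ≠ 0) :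
    QC K ((aff a b ha).trans h) := by
  simpa using hQ.1 _ _ _ _ (hQ.2.2.1 _ a b (aff_apply a b ha)) H

lemma qc_right (hQ : St_QC) {K : ℝ≥0} {h : ℂ ≃ₜ ℂ} (H : QC K h) (a b : ℂ) (ha : a ≠ 0) :
    QC K (h.trans (aff a b ha)) := by
  simpa using hQ.1 _ _ _ _ H (hQ.2.2.1 _ a b (aff_apply a b ha))

end CPT

open CPT

theorem stCPT (hB : St_BND) (hE : St_EQC) (hT : St_TR) : St_CPT := by
  intro ι U K H h0 h1 hq
  obtain ⟨f, cf, tf⟩ := lim hB hE U H h0 h1 hq
  obtain ⟨g, cg, tg⟩ := lim hB hE U (fun i => (H i).symm)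
    (fun i => by rw [Homeomorph.symm_apply_eq, h0]) (fun i => by rw [Homeomorph.symm_apply_eq, h1])
    (fun i => (hq i).symm)
  have pf := fun x => tf.tendstoLocallyUniformlyOn.tendsto_at (mem_univ x)
  have pg := fun x => tg.tendstoLocallyUniformlyOn.tendsto_at (mem_univ x)
  refine ⟨⟨⟨f, g, fun x => ?_, fun x => ?_⟩, cf, cg⟩, ?_, ?_,
    ⟨hT.2.2.2 ι U K _ f cf (fun i => (hq i).1) tf, hT.2.2.2 ι U K _ g cg (fun i => (hq i).2) tg⟩,
    tf, tg⟩
  · exact tendsto_nhds_unique (tg.tendsto_comp cg.continuousAt (pf x)) (by simp)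
  · exact tendsto_nhds_unique (tf.tendsto_comp cf.continuousAt (pg x)) (by simp)
  · exact tendsto_nhds_unique (pf 0) (by simp [h0])
  · exact tendsto_nhds_unique (pf 1) (by simp [h1])

theorem stCPT2 (hC : St_CPT) (hQ : St_QC) : St_CPT2 := by
  intro ι U K H a b hab ta tb hq
  have ne : ∀ i, H i 1 - H i 0 ≠ 0 := fun i => sub_ne_zero.2 ((H i).injective.ne one_ne_zero)
  have nab : b - a ≠ 0 := sub_ne_zero.2 hab.symm
  obtain ⟨h, -, -, q, t1, t2⟩ := hC ι U K
    (fun i => (H i).trans (aff (H i 1 - H i 0) (H i 0) (ne i)).symm)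
    (fun i => by simp [aff_symm]) (fun i => by simp [aff_symm, ne i])
    (fun i => (qc_left hQ (hq i).symm _ _ (ne i)).symm)
  rw [tlu_iff h.continuous] at t1
  rw [tlu_iff h.symm.continuous] at t2
  refine ⟨h.trans (aff (b - a) a nab), qc_right hQ q _ _ _,
    (tlu_iff (Homeomorph.continuous _)).2 fun x => ?_,
    (tlu_iff (Homeomorph.continuous _)).2 fun x => ?_⟩
  · have ta' := ta.comp (tendsto_fst (f := (U : Filter ι)) (g := 𝓝 x))
    have tb' := tb.comp (tendsto_fst (f := (U : Filter ι)) (g := 𝓝 x))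
    refine (((tb'.sub ta').mul (t1 x)).add ta').congr fun y => ?_
    have := ne y.1
    simp only [Function.comp, Homeomorph.trans_apply, aff_symm]
    field_simp; ring
  · have ta' := ta.comp (tendsto_fst (f := (U : Filter ι)) (g := 𝓝 x))
    have tb' := tb.comp (tendsto_fst (f := (U : Filter ι)) (g := 𝓝 x))
    have t3 := (t2 ((x - a) / (b - a))).comp (tendsto_fst.prodMk
      ((tendsto_snd.sub ta').div (tb'.sub ta') nab))
    rw [Homeomorph.symm_trans_apply, aff_symm]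
    refine t3.congr fun y => ?_
    have := ne y.1
    simp only [Function.comp, Homeomorph.symm_trans_apply, Homeomorph.symm_symm, aff_apply,
      Pi.div_apply]
    congr 1
    field_simp; ring

theorem stINV (hC : St_CPT) (hQ : St_QC) : St_INV := by
  intro K h A z q hA h0
  obtain ⟨e, he⟩ : ∃ e, A e ≠ 0 := by
    by_contra hc
    push Not at hc
    exact h0 (ContinuousLinearMap.ext hc)
  have e0 : e ≠ 0 := fun c => he (by rw [c, map_zero])
  have n0 : ∀ n : ℕ, ((n : ℂ) + 1) ≠ 0 := Nat.cast_add_one_ne_zero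
  let H : ℕ → ℂ ≃ₜ ℂ := fun n => ((aff (e / (n + 1)) z (div_ne_zero e0 (n0 n))).trans h).trans
    (aff (n + 1) (-((n + 1) * h z)) (n0 n))
  have pt : ∀ w, Tendsto (fun n => H n w) (hyperfilter ℕ) (𝓝 (A (e * w))) := fun w => by
    have h1 : Tendsto (fun n : ℕ => ‖(n : ℝ) + 1‖) atTop atTop :=
      tendsto_norm_atTop_atTop.comp (tendsto_atTop_add_const_right _ 1 tendsto_natCast_atTop_atTop)
    refine ((hA.lim (e * w) h1).mono_left Nat.hyperfilter_le_atTop).congr fun n => ?_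
    simp only [H, Homeomorph.trans_apply, aff_apply, Complex.real_smul]
    push_cast
    rw [mul_sub, sub_eq_add_neg]
    congr 3
    ring
  obtain ⟨g, -, t, -⟩ := stCPT2 hC hQ ℕ (hyperfilter ℕ) K H 0 (A e) he.symm
    (by simpa using pt 0) (by simpa using pt 1)
    (fun n => qc_right hQ (qc_left hQ q _ _ _) _ _ _)
  have k : ∀ u, A u = g (u / e) := fun u => by
    have := tendsto_nhds_unique (pt (u / e)) (t.tendstoLocallyUniformlyOn.tendsto_at (mem_univ _))
    rwa [mul_div_cancel₀ _ e0] at this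
  intro u v huv
  rw [k, k] at huv
  exact (div_left_inj' e0).1 (g.injective huv)

end Pool.Agent.Lib.THU.EC
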