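import Pool.Agent.Lib.THU.EC.Defs

set_option autoImplicit false

/-!
Energy calculus in the plane: elementary lemmas.
-/

namespace Pool.Agent.Lib.THU.EC

open MeasureTheory Set Metric Filter Topology
open scoped ENNReal NNReal ComplexConjugate

variable {O O' Q Q' : Set ℂ} {v v' w : ℂ → ℂ} {c c' : ℝ≥0∞} {G : ℂ → ℂ →L[ℝ] ℂ} {η : ℂ → ℝ}

lemma En_mono (w : ℂ → ℂ) (h : Q ⊆ Q') : En w Q ≤ En w Q' := lintegral_mono_set h

lemma En_id (Q : Set ℂ) : En id Q = volume Q := by
  simp [En, enorm, ContinuousLinearMap.nnnorm_id]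

lemma AppQ.mono (h : AppQ Q v c) (hQ : Q' ⊆ Q) (hc : c ≤ c') : AppQ Q' v c' := fun ε hε => by
  obtain ⟨w, h1, h2, h3⟩ := h ε hε
  exact ⟨w, fun z hz => h1 z (hQ hz), fun z hz => h2 z (hQ hz),
    (En_mono w hQ).trans (h3.trans (by gcongr))⟩

lemma AppQ.congr (h : AppQ Q v c) (e : EqOn v v' Q) : AppQ Q v' c := fun ε hε => by
  obtain ⟨w, h1, h2, h3⟩ := h ε hε
  exact ⟨w, h1, fun z hz => e hz ▸ h2 z hz, h3⟩

/-- Relaxed energy is lower semicontinuous. -/
lemma AppQ.lim (h : ∀ ε : ℝ, 0 < ε → ∃ v' : ℂ → ℂ, (∀ z ∈ Q, ‖v' z - v z‖ ≤ ε) ∧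
    AppQ Q v' (c + ENNReal.ofReal ε)) : AppQ Q v c := fun ε hε => by
  obtain ⟨v', h1, h2⟩ := h (ε / 2) (half_pos hε)
  obtain ⟨w, h3, h4, h5⟩ := h2 (ε / 2) (half_pos hε)
  refine ⟨w, h3, fun z hz => ?_, h5.trans_eq ?_⟩
  · linarith [norm_sub_le_norm_sub_add_norm_sub (w z) (v' z) (v z), h1 z hz, h4 z hz]
  · rw [add_assoc, ← ENNReal.ofReal_add (half_pos hε).le (half_pos hε).le, add_halves]

lemma AppQ.cont (h : AppQ Q v c) : ContinuousOn v Q := by
  refine continuousOn_of_uniform_approx_of_continuousOn fun u hu => ?_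
  obtain ⟨ε, hε, hu⟩ := Metric.mem_uniformity_dist.1 hu
  obtain ⟨w, h1, h2, -⟩ := h (ε / 2) (half_pos hε)
  refine ⟨w, fun z hz => (h1 z hz).continuousAt.continuousWithinAt, fun z hz => hu ?_⟩
  rw [dist_comm, dist_eq_norm]
  linarith [h2 z hz]

lemma App.mono (h : App O v c) (hO : O' ⊆ O) (hc : c ≤ c') : App O' v c' :=
  fun Q hQ hK => (h Q (hQ.trans hO) hK).mono subset_rfl hc

lemma App.congr (h : App O v c) (e : EqOn v v' O) : App O v' c :=
  fun Q hQ hK => (h Q hQ hK).congr (e.mono hQ)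

lemma App.cont (h : App O v c) (hO : IsOpen O) : ContinuousOn v O := fun z hz => by
  obtain ⟨Q, h1, h2, h3⟩ := local_compact_nhds (hO.mem_nhds hz)
  exact ((h Q h2 h3).cont.continuousAt h1).continuousWithinAt

lemma app_of_contDiff (h : ∀ z ∈ O, ContDiffAt ℝ 1 v z) : App O v (En v O) :=
  fun Q hQ _ ε hε => ⟨v, fun z hz => h z (hQ hz), fun z _ => by simpa using hε.le,
    (En_mono v hQ).trans le_self_add⟩

lemma app_id (O : Set ℂ) : App O id (volume O) :=
  En_id O ▸ app_of_contDiff fun _ _ => contDiffAt_id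

lemma Test.mono (h : Test O η) (hO : O ⊆ O') : Test O' η := ⟨h.cd, h.cs, h.sub.trans hO⟩

lemma Wk.mono (h : Wk O v G) (hO : O' ⊆ O) : Wk O' v G :=
  ⟨h.cont.mono hO, h.meas.mono_measure (Measure.restrict_mono hO le_rfl),
    (lintegral_mono_set hO).trans_lt h.fin, fun η hη => h.ibp η (hη.mono hO)⟩

/-- A function that is continuous on the support of a continuous factor. -/
lemma continuous_smul_of {E : Type*} [NormedAddCommGroup E] [NormedSpace ℝ E] {φ : ℂ → ℝ}
    {F : ℂ → E} {S : Set ℂ} (hφ : Continuous φ) (hS : tsupport φ ⊆ S)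
    (hF : ∀ z ∈ S, ContinuousAt F z) : Continuous fun z => φ z • F z := by
  refine continuous_iff_continuousAt.2 fun z => ?_
  by_cases hz : z ∈ tsupport φ
  · exact hφ.continuousAt.smul (hF z (hS hz))
  · refine continuousAt_const.congr (f := fun _ => (0 : E)) ?_
    filter_upwards [notMem_tsupport_iff_eventuallyEq.1 hz] with y hy
    simp [hy]

lemma tsupport_fderiv_apply (η : ℂ → ℝ) (e : ℂ) :
    tsupport (fun z => fderiv ℝ η z e) ⊆ tsupport η :=
  (tsupport_comp_subset (g := fun A : ℂ →L[ℝ] ℝ => A e) rfl _).trans (tsupport_fderiv_subset ℝ)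

lemma continuous_fderiv_apply' (h : ContDiff ℝ 1 η) (e : ℂ) : Continuous fun z => fderiv ℝ η z e :=
  (h.continuous_fderiv one_ne_zero).clm_apply continuous_const

/-- A compactly supported continuous factor times a function continuous on its support is
integrable. -/
lemma integrable_smul_of {E : Type*} [NormedAddCommGroup E] [NormedSpace ℝ E] {φ : ℂ → ℝ}
    {F : ℂ → E} {S : Set ℂ} (hφ : Continuous φ) (hK : IsCompact S) (hS : tsupport φ ⊆ S)
    (hF : ContinuousOn F S) : Integrable fun z => φ z • F z := by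
  have h1 : IntegrableOn (fun z => φ z • F z) S :=
    (hφ.continuousOn.smul hF).integrableOn_compact hK
  refine (integrableOn_iff_integrable_of_support_subset fun z hz => hS (subset_tsupport _ ?_)).1 h1
  intro e
  simp [e] at hz

lemma Test.integrable_fderiv (h : Test O η) (hv : ContinuousOn v O) (e : ℂ) :
    Integrable fun z => fderiv ℝ η z e • v z :=
  integrable_smul_of (continuous_fderiv_apply' h.cd e) h.cs (tsupport_fderiv_apply η e)
    (hv.mono h.sub)

theorem stIBP0 : St_IBP0 := by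
  intro η w e h1 h2 h3
  have hw : ContinuousOn w (tsupport η) := fun z hz => (h3 z hz).continuousAt.continuousWithinAt
  have hd : ∀ z ∈ tsupport η, ContinuousAt (fun z => fderiv ℝ w z e) z := fun z hz =>
    ((h3 z hz).continuousAt_fderiv one_ne_zero).clm_apply continuousAt_const
  have i1 := integrable_smul_of (continuous_fderiv_apply' h1 e) h2 (tsupport_fderiv_apply η e) hw
  have i2 := integrable_smul_of h1.continuous h2 subset_rfl
    (fun z hz => (hd z hz).continuousWithinAt)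
  have i3 := integrable_smul_of h1.continuous h2 subset_rfl hw
  have key : ∀ z, HasLineDerivAt ℝ (fun z => η z • w z)
      (fderiv ℝ η z e • w z + η z • fderiv ℝ w z e) z e := fun z => by
    by_cases hz : z ∈ tsupport η
    · have := ((h1.differentiable one_ne_zero z).hasFDerivAt.smul
        ((h3 z hz).differentiableAt one_ne_zero).hasFDerivAt).hasLineDerivAt e
      refine this.congr_deriv ?_
      simp [add_comm]
    · have h4 := notMem_tsupport_iff_eventuallyEq.1 hz
      have h5 : fderiv ℝ η z = 0 := by rw [h4.fderiv_eq]; simp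
      have h6 : (fun z => η z • w z) =ᶠ[𝓝 z] fun _ => 0 := by
        filter_upwards [h4] with y hy
        simp [hy]
      have := ((hasFDerivAt_const (𝕜 := ℝ) (0 : ℂ) z).congr_of_eventuallyEq h6).hasLineDerivAt e
      simpa [h5, h4.eq_of_nhds] using this
  have h0 := integral_bilinear_hasLineDerivAt_right_eq_neg_left_of_integrable
    (μ := (volume : Measure ℂ)) (B := ContinuousLinearMap.lsmul ℝ ℝ (E := ℂ)) (v := e)
    (f := fun _ => (1 : ℝ)) (f' := fun _ => 0) (g := fun z => η z • w z)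
    (g' := fun z => fderiv ℝ η z e • w z + η z • fderiv ℝ w z e)
    (by simp) ((i1.add i2).congr (by simp [Pi.add_def])) (by simpa using i3)
    (fun z _ => ((hasFDerivAt_const (𝕜 := ℝ) (1 : ℝ) z).hasLineDerivAt e)) (fun z _ => key z)
  simp only [ContinuousLinearMap.lsmul_apply, one_smul, zero_smul, integral_zero, neg_zero] at h0
  rw [integral_add i1 i2] at h0
  exact eq_neg_of_add_eq_zero_left h0

/-- Classical derivatives are weak derivatives. -/
lemma wk_of_contDiff (h : ∀ z ∈ O, ContDiffAt ℝ 1 v z) (hE : En v O < ∞) :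
    Wk O v (fderiv ℝ v) :=
  ⟨fun z hz => (h z hz).continuousAt.continuousWithinAt,
    (measurable_fderiv ℝ v).aestronglyMeasurable, hE,
    fun η hη e => stIBP0 η v e hη.cd hη.cs fun z hz => h z (hη.sub hz)⟩

lemma Wk.integrableOn (h : Wk O v G) (hQ : Q ⊆ O) (hf : volume Q < ∞) : IntegrableOn G Q := by
  have h1 := h.mono hQ
  have : Fact (volume Q < ∞) := ⟨hf⟩
  have h2 : MemLp G 2 (volume.restrict Q) := by
    refine ⟨h1.meas, ?_⟩
    rw [eLpNorm_lt_top_iff_lintegral_rpow_enorm_lt_top two_ne_zero ENNReal.ofNat_ne_top]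
    simpa using h1.fin
  exact h2.integrable one_le_two

lemma Wk.integrable (h : Wk O v G) (hη : Test O η) (e : ℂ) : Integrable fun z => η z • G z e := by
  have h1 : IntegrableOn (fun z => G z e) (tsupport η) :=
    (ContinuousLinearMap.apply ℝ ℂ e).integrable_comp
      (h.integrableOn hη.sub hη.cs.measure_lt_top)
  have h2 : IntegrableOn (fun z => η z • G z e) (tsupport η) :=
    h1.continuousOn_smul hη.cd.continuous.continuousOn hη.cs
  refine (integrableOn_iff_integrable_of_support_subset fun z hz => subset_tsupport _ ?_).1 h2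
  intro e
  simp [e] at hz

lemma Wk.sub (h : Wk O v G) {G' : ℂ → ℂ →L[ℝ] ℂ} (h' : Wk O v' G') :
    Wk O (fun z => v z - v' z) (fun z => G z - G' z) := by
  refine ⟨h.cont.sub h'.cont, h.meas.sub h'.meas, ?_, fun η hη e => ?_⟩
  · have m : ∀ {F : ℂ → ℂ →L[ℝ] ℂ}, AEStronglyMeasurable F (volume.restrict O) →
        (MemLp F 2 (volume.restrict O) ↔ ∫⁻ z in O, ‖F z‖ₑ ^ 2 < ∞) := fun {F} hF => by
      rw [MemLp, eLpNorm_lt_top_iff_lintegral_rpow_enorm_lt_top two_ne_zero ENNReal.ofNat_ne_top]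
      simp [hF]
    exact (m (h.meas.sub h'.meas)).1 (((m h.meas).2 h.fin).sub ((m h'.meas).2 h'.fin))
  · simp only [smul_sub, sub_apply]
    rw [integral_sub (hη.integrable_fderiv h.cont e) (hη.integrable_fderiv h'.cont e),
      integral_sub (h.integrable hη e) (h'.integrable hη e), h.ibp η hη, h'.ibp η hη]
    ring

lemma wk_clm (A : ℂ →L[ℝ] ℂ) (hf : volume O < ∞) : Wk O A fun _ => A := by
  have e : fderiv ℝ A = fun _ => A := funext fun _ => A.fderiv
  rw [← e]
  refine wk_of_contDiff (fun _ _ => A.contDiff.contDiffAt) ?_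
  simp only [En, e, lintegral_const, Measure.restrict_apply_univ]
  exact ENNReal.mul_lt_top (ENNReal.pow_lt_top enorm_lt_top) hf

lemma QC.symm {K : ℝ≥0} {h : ℂ ≃ₜ ℂ} (H : QC K h) : QC K h.symm := ⟨H.2, H.1⟩

lemma TrOn.mono {D D' : Set ℂ} {K K' : ℝ≥0} {f : ℂ → ℂ} (H : TrOn D K f) (hD : D' ⊆ D)
    (hK : K ≤ K') : TrOn D' K' f := fun O u c hO hu =>
  (H O u c hO hu).mono (inter_subset_inter_left _ hD) (by gcongr)

lemma TrOn.congr {D : Set ℂ} {K : ℝ≥0} {f g : ℂ → ℂ} (H : TrOn D K f) (e : EqOn f g D) :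
    TrOn D K g := fun O u c hO hu =>
  ((H O u c hO hu).mono (fun z hz => ⟨hz.1, by rw [mem_preimage, e hz.1]; exact hz.2⟩)
    le_rfl).congr fun z hz => by simp [e hz.1]

/-- A continuous open map sends a disc into every disc that contains the image of its circle. -/
lemma mono_disc {h : ℂ → ℂ} (hc : Continuous h) (ho : IsOpenMap h) {z a : ℂ} {r δ : ℝ}
    (hr : 0 ≤ r) (H : ∀ x ∈ sphere z r, ‖h x - a‖ ≤ δ) : ∀ x ∈ closedBall z r, ‖h x - a‖ ≤ δ := by
  obtain ⟨y, hy, hm⟩ := (isCompact_closedBall z r).exists_isMaxOn ⟨z, mem_closedBall_self hr⟩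
    (f := fun x => ‖h x - a‖) (by fun_prop)
  suffices ‖h y - a‖ ≤ δ from fun x hx => (hm hx).trans this
  rcases (mem_closedBall.1 hy).eq_or_lt with e | e
  · exact H y e
  exfalso
  have h1 : h '' ball z r ∈ 𝓝 (h y) := ho.image_mem_nhds (isOpen_ball.mem_nhds e)
  have h2 : IsLocalMax (fun x => ‖x - a‖) (h y) := by
    filter_upwards [h1]
    rintro _ ⟨x, hx, rfl⟩
    exact hm (ball_subset_closedBall hx)
  have h3 := Complex.norm_eventually_eq_of_isLocalMax (f := fun x : ℂ => x - a) (c := h y)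
    (Eventually.of_forall fun x => by fun_prop) h2
  have h4 := Complex.eventually_eq_of_isLocalMax_norm (f := fun x : ℂ => x - a) (c := h y)
    (Eventually.of_forall fun x => by fun_prop) h2
  obtain ⟨x, h5, h6⟩ := ((h4.filter_mono (nhdsWithin_le_nhds (s := {h y}ᶜ))).and
    self_mem_nhdsWithin).exists
  exact h6 (sub_left_injective h5)

end Pool.Agent.Lib.THU.EC
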