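import Mathlib

set_option autoImplicit false

/-!
Energy calculus in the plane: definitions and interface statements.
-/

namespace Pool.Agent.Lib.THU.EC

open MeasureTheory Set Metric Filter Topology
open scoped ENNReal NNReal ComplexConjugate

/-- The Dirichlet energy (operator norm) of `w` on `Q`. -/
noncomputable def En (w : ℂ → ℂ) (Q : Set ℂ) : ℝ≥0∞ := ∫⁻ z in Q, ‖fderiv ℝ w z‖ₑ ^ 2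

/-- On `Q` the function `v` is a uniform limit of `C¹` functions of energy about `c`. -/
def AppQ (Q : Set ℂ) (v : ℂ → ℂ) (c : ℝ≥0∞) : Prop :=
  ∀ ε : ℝ, 0 < ε → ∃ w : ℂ → ℂ, (∀ z ∈ Q, ContDiffAt ℝ 1 w z) ∧ (∀ z ∈ Q, ‖w z - v z‖ ≤ ε) ∧
    En w Q ≤ c + ENNReal.ofReal ε

/-- Relaxed energy at most `c` on `O`. -/
def App (O : Set ℂ) (v : ℂ → ℂ) (c : ℝ≥0∞) : Prop := ∀ Q ⊆ O, IsCompact Q → AppQ Q v c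

/-- Test functions in `O`. -/
structure Test (O : Set ℂ) (η : ℂ → ℝ) : Prop where
  cd : ContDiff ℝ 1 η
  cs : HasCompactSupport η
  sub : tsupport η ⊆ O

/-- `G` is a square integrable weak derivative of the continuous function `v` on `O`. -/
structure Wk (O : Set ℂ) (v : ℂ → ℂ) (G : ℂ → ℂ →L[ℝ] ℂ) : Prop where
  cont : ContinuousOn v O
  meas : AEStronglyMeasurable G (volume.restrict O)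
  fin : ∫⁻ z in O, ‖G z‖ₑ ^ 2 < ∞
  ibp : ∀ η, Test O η → ∀ e : ℂ, ∫ z, fderiv ℝ η z e • v z = - ∫ z, η z • G z e

/-- Distortion at most `K` on `S`. -/
def Dist (K : ℝ≥0) (f : ℂ → ℂ) (S : Set ℂ) : Prop :=
  ∀ z ∈ S, ‖fderiv ℝ f z‖ ^ 2 ≤ K * |(fderiv ℝ f z).det|

/-- Composition with `f` on `D` multiplies relaxed energies by at most `K`. -/
def TrOn (D : Set ℂ) (K : ℝ≥0) (f : ℂ → ℂ) : Prop :=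
  ∀ (O : Set ℂ) (u : ℂ → ℂ) (c : ℝ≥0∞), IsOpen O → App O u c → App (D ∩ f ⁻¹' O) (u ∘ f) (K * c)

/-- Quasiconformal homeomorphisms of the plane. -/
def QC (K : ℝ≥0) (h : ℂ ≃ₜ ℂ) : Prop := TrOn univ K h ∧ TrOn univ K h.symm

/-- Removable closed sets. -/
def Rem (Z : Set ℂ) : Prop :=
  IsClosed Z ∧ ∀ (O : Set ℂ) (v : ℂ → ℂ), IsOpen O → ContinuousOn v O →
    (∀ z ∈ O \ Z, ContDiffAt ℝ 1 v z) → En v (O \ Z) < ∞ →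
    Wk O v (Zᶜ.indicator (fderiv ℝ v))

/-- Smoothing. -/
noncomputable def conv (ρ : ℂ → ℝ) (v : ℂ → ℂ) (z : ℂ) : ℂ := ∫ y, ρ (z - y) • v y

/-- Mollifiers of radius `δ`. -/
structure Mol (δ : ℝ) (ρ : ℂ → ℝ) : Prop where
  test : Test (ball 0 δ) ρ
  nonneg : ∀ z, 0 ≤ ρ z
  le : ∀ z, ρ z ≤ 2 / δ ^ 2
  int : ∫ z, ρ z = 1

/-- the real line -/
def RL : Set ℂ := {z | z.im = 0}

/-! ### Interface statements -/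

def St_IBP0 : Prop := ∀ (η : ℂ → ℝ) (w : ℂ → ℂ) (e : ℂ), ContDiff ℝ 1 η → HasCompactSupport η →
  (∀ z ∈ tsupport η, ContDiffAt ℝ 1 w z) →
  ∫ z, fderiv ℝ η z e • w z = - ∫ z, η z • fderiv ℝ w z e

def St_IBP : Prop := ∀ (η : ℂ → ℝ) (v : ℂ → ℂ) (e : ℂ) (c : ℝ≥0∞), ContDiff ℝ 1 η →
  HasCompactSupport η → AppQ (tsupport η) v c →
  ‖∫ z, fderiv ℝ η z e • v z‖ₑ ^ 2 ≤ ‖e‖ₑ ^ 2 * c * ∫⁻ z, ‖η z‖ₑ ^ 2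

def St_MOL : Prop := (∀ δ : ℝ, 0 < δ → ∃ ρ, Mol δ ρ) ∧
  ∀ (δ : ℝ) (ρ : ℂ → ℝ) (O : Set ℂ) (v : ℂ → ℂ) (z : ℂ), Mol δ ρ → IsOpen O → ContinuousOn v O →
    closedBall z δ ⊆ O →
    ContDiffAt ℝ 1 (conv ρ v) z ∧
    (∀ e, fderiv ℝ (conv ρ v) z e = ∫ y, fderiv ℝ ρ (z - y) e • v y) ∧
    (∀ G, Wk O v G → ∀ e, fderiv ℝ (conv ρ v) z e = ∫ y, ρ (z - y) • G y e) ∧
    ∀ ω : ℝ, (∀ y ∈ ball z δ, ‖v y - v z‖ ≤ ω) → ‖conv ρ v z - v z‖ ≤ ω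

def St_M : Prop :=
  (∀ (O : Set ℂ) (v : ℂ → ℂ) (G : ℂ → ℂ →L[ℝ] ℂ), IsOpen O → Wk O v G →
    App O v (∫⁻ z in O, ‖G z‖ₑ ^ 2)) ∧
  ∀ (O : Set ℂ) (v : ℂ → ℂ), IsOpen O → ContinuousOn v O → App O v ∞

def St_POI : Prop := ∀ (O : Set ℂ) (v : ℂ → ℂ) (G : ℂ → ℂ →L[ℝ] ℂ) (x y : ℂ) (δ ω E : ℝ),
  IsOpen O → Wk O v G → 0 < δ → 0 ≤ E → (∀ z ∈ segment ℝ x y, closedBall z δ ⊆ O) →
  ∫⁻ z in O, ‖G z‖ₑ ≤ ENNReal.ofReal E →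
  (∀ a ∈ ball x δ, ‖v a - v x‖ ≤ ω) → (∀ a ∈ ball y δ, ‖v a - v y‖ ≤ ω) →
  ‖v y - v x‖ ≤ 2 * ω + 2 * E * ‖y - x‖ / δ ^ 2

def St_WEYL : Prop := ∀ (O : Set ℂ) (v : ℂ → ℂ), IsOpen O → ContinuousOn v O →
  (∀ η, Test O η → (∫ z, fderiv ℝ η z 1 • v z) + Complex.I * ∫ z, fderiv ℝ η z Complex.I • v z = 0) →
  DifferentiableOn ℂ v O

def St_CV : Prop := ∀ (K : ℝ≥0) (f w : ℂ → ℂ) (S : Set ℂ), MeasurableSet S → InjOn f S →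
  (∀ z ∈ S, DifferentiableAt ℝ f z) → (∀ z ∈ S, DifferentiableAt ℝ w (f z)) → Dist K f S →
  En (w ∘ f) S ≤ K * En w (f '' S)

def St_DIST : Prop :=
  (∀ (f : ℂ → ℂ) (S : Set ℂ), (∀ z ∈ S, DifferentiableAt ℂ f z) → Dist 1 f S) ∧
  (∀ S : Set ℂ, Dist 1 (fun z => conj z) S) ∧
  (∀ (K K' : ℝ≥0) (f g : ℂ → ℂ) (S : Set ℂ), (∀ z ∈ S, DifferentiableAt ℝ f z) →
    (∀ z ∈ S, DifferentiableAt ℝ g (f z)) → Dist K f S → Dist K' g (f '' S) →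
    Dist (K * K') (g ∘ f) S) ∧
  (∀ (K : ℝ≥0) (A B : ℂ →L[ℝ] ℂ), (∀ e, B (A e) = e) → ‖A‖ ^ 2 ≤ K * |A.det| →
    ‖B‖ ^ 2 ≤ K * |B.det|) ∧
  ∀ (K : ℝ≥0) (k : ℝ) (a μ : ℂ) (A : ℂ →L[ℝ] ℂ), (∀ e, A e = a * (e + μ * conj e)) → ‖μ‖ ≤ k →
    k < 1 → 1 + k ≤ K * (1 - k) → ‖A‖ ^ 2 ≤ K * |A.det|

def St_CUT : Prop := ∀ (O Z : Set ℂ) (v : ℂ → ℂ) (G : ℂ → ℂ →L[ℝ] ℂ), IsOpen O → IsClosed Z →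
  ContinuousOn v O → Wk (O \ Z) v G →
  (∀ η, Test O η → ∀ (e : ℂ) (ε : ℝ), 0 < ε → ∃ χ : ℂ → ℝ, ContDiff ℝ 1 χ ∧
    (∀ z, χ z ∈ Icc (0 : ℝ) 1) ∧ (∀ z ∈ Z, χ =ᶠ[𝓝 z] 1) ∧ (∀ z, χ z ≠ 0 → z ∈ thickening ε Z) ∧
    ‖∫ z, fderiv ℝ (fun z => χ z * η z) z e • v z‖ ≤ ε) →
  Wk O v (Zᶜ.indicator G)

def St_LINE : Prop := Rem RL

def St_PT : Prop := ∀ (O P : Set ℂ) (v : ℂ → ℂ) (c : ℝ≥0∞), IsOpen O → P.Finite →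
  ContinuousOn v O → App (O \ P) v c → App O v (4 * c)

def St_REM : Prop :=
  (∀ (Z : Set ℂ) (K : ℝ≥0), IsClosed Z → (∀ (O : Set ℂ) (v : ℂ → ℂ), IsOpen O → ContinuousOn v O →
    (∀ z ∈ O \ Z, ContDiffAt ℝ 1 v z) → En v (O \ Z) < ∞ → App O v (K * En v (O \ Z))) → Rem Z) ∧
  (∀ (Z : Set ℂ) (K K' : ℝ≥0) (f : ℂ ≃ₜ ℂ), Rem Z → (∀ z ∉ Z, ContDiffAt ℝ 1 f z) →
    Dist K f Zᶜ → TrOn univ K' f.symm → Rem (f '' Z)) ∧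
  (∀ (Z O : Set ℂ) (v : ℂ → ℂ), Rem Z → IsOpen O → ContinuousOn v O → InjOn v (O \ Z) →
    (∀ z ∈ O \ Z, DifferentiableAt ℂ v z) → DifferentiableOn ℂ v O) ∧
  ∀ (Z D : Set ℂ) (K : ℝ≥0) (f : ℂ → ℂ), Rem Z → IsOpen D → ContinuousOn f D → InjOn f (D \ Z) →
    (∀ z ∈ D \ Z, ContDiffAt ℝ 1 f z) → Dist K f (D \ Z) → TrOn D K f

def St_TR : Prop :=
  (∀ (D : Set ℂ) (K : ℝ≥0) (f : ℂ → ℂ), InjOn f D → (∀ z ∈ D, ContDiffAt ℝ 1 f z) → Dist K f D →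
    TrOn D K f) ∧
  (∀ (D D' : Set ℂ) (K K' : ℝ≥0) (f g : ℂ → ℂ), IsOpen D' → ContinuousOn g D' → TrOn D K f →
    TrOn D' K' g → TrOn (D ∩ f ⁻¹' D') (K * K') (g ∘ f)) ∧
  (∀ (D P : Set ℂ) (K : ℝ≥0) (f g : ℂ → ℂ), IsOpen D → P.Finite → ContinuousOn f D →
    EqOn f g (D \ P) → TrOn (D \ P) K g → TrOn D (4 * K) f) ∧
  ∀ (ι : Type) (l : Filter ι) [l.NeBot] (K : ℝ≥0) (F : ι → ℂ → ℂ) (f : ℂ → ℂ), Continuous f →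
    (∀ i, TrOn univ K (F i)) → TendstoLocallyUniformly F f l → TrOn univ K f

def St_CL : Prop := ∀ (v : ℂ → ℂ) (z : ℂ) (s S δ : ℝ) (c : ℝ≥0∞), 0 < s → s < S → 0 < δ →
  AppQ {x | s ≤ ‖x - z‖ ∧ ‖x - z‖ ≤ S} v c → 7 * c < ENNReal.ofReal (δ ^ 2 * Real.log (S / s)) →
  ∃ r ∈ Icc s S, ∀ x ∈ sphere z r, ∀ y ∈ sphere z r, ‖v x - v y‖ ≤ δ

def St_OSC : Prop := ∀ (h : ℂ → ℂ) (z : ℂ) (s S δ : ℝ) (c : ℝ≥0∞), Continuous h → IsOpenMap h →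
  0 < s → s < S → 0 < δ → AppQ (closedBall z S) h c →
  7 * c < ENNReal.ofReal (δ ^ 2 * Real.log (S / s)) → ∀ x ∈ closedBall z s, ‖h x - h z‖ ≤ 2 * δ

def St_BND : Prop := ∀ (K : ℝ≥0) (r : ℝ), ∃ R : ℝ, ∀ h : ℂ ≃ₜ ℂ, h 0 = 0 → h 1 = 1 →
  TrOn univ K h.symm → ∀ z, ‖z‖ ≤ r → ‖h z‖ ≤ R

def St_EQC : Prop := ∀ (K : ℝ≥0) (r ε : ℝ), 0 < ε → ∃ δ > 0, ∀ h : ℂ ≃ₜ ℂ, h 0 = 0 → h 1 = 1 →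
  QC K h → ∀ x y, ‖x‖ ≤ r → ‖y - x‖ ≤ δ → ‖h y - h x‖ ≤ ε

def St_CPT : Prop := ∀ (ι : Type) (U : Ultrafilter ι) (K : ℝ≥0) (H : ι → ℂ ≃ₜ ℂ),
  (∀ i, H i 0 = 0) → (∀ i, H i 1 = 1) → (∀ i, QC K (H i)) →
  ∃ h : ℂ ≃ₜ ℂ, h 0 = 0 ∧ h 1 = 1 ∧ QC K h ∧
    TendstoLocallyUniformly (fun i => (H i : ℂ → ℂ)) h U ∧
    TendstoLocallyUniformly (fun i => ((H i).symm : ℂ → ℂ)) h.symm U

def St_R : Prop := ∀ (O : Set ℂ) (v : ℂ → ℂ) (c : ℝ≥0∞), IsOpen O → App O v c → c < ∞ →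
  ∃ G, Wk O v G ∧ ∫⁻ z in O, ‖G z‖ₑ ^ 2 ≤ 4 * c

def St_AE : Prop := ∀ (O : Set ℂ) (h : ℂ → ℂ) (G : ℂ → ℂ →L[ℝ] ℂ), IsOpen O → Continuous h →
  IsOpenMap h → Wk O h G → ∀ᵐ z, z ∈ O → HasFDerivAt h (G z) z

def St_INV : Prop := ∀ (K : ℝ≥0) (h : ℂ ≃ₜ ℂ) (A : ℂ →L[ℝ] ℂ) (z : ℂ), QC K h →
  HasFDerivAt h A z → A ≠ 0 → Function.Injective A

def St_OR : Prop := ∀ (h : ℂ → ℂ) (A B : ℂ →L[ℝ] ℂ) (x y : ℂ), Continuous h →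
  Function.Injective h → HasFDerivAt h A x → HasFDerivAt h B y → 0 < A.det → 0 ≤ B.det

def St_QC : Prop :=
  (∀ (K K' : ℝ≥0) (h h' : ℂ ≃ₜ ℂ), QC K h → QC K' h' → QC (K * K') (h.trans h')) ∧
  (∀ (K : ℝ≥0) (h : ℂ ≃ₜ ℂ), ContDiff ℝ 1 h → (∀ z, (fderiv ℝ h z).det ≠ 0) → Dist K h univ →
    QC K h) ∧
  (∀ (h : ℂ ≃ₜ ℂ) (a b : ℂ), (∀ z, h z = a * z + b) → QC 1 h) ∧
  (∀ h : ℂ ≃ₜ ℂ, (∀ z, h z = conj z) → QC 1 h) ∧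
  ∀ (K : ℝ≥0) (h : ℂ ≃ₜ ℂ) (R R' : ℝ), TrOn univ K h → MapsTo h (ball 0 R) (ball 0 R') →
    App (ball 0 R) h (K * volume (ball (0 : ℂ) R'))

def St_QS : Prop := ∀ K : ℝ≥0, ∃ M : ℝ → ℝ, ∀ h : ℂ ≃ₜ ℂ, QC K h → ∀ (x y z : ℂ) (R : ℝ),
  x ≠ z → ‖y - x‖ ≤ R * ‖z - x‖ → ‖h y - h x‖ ≤ M R * ‖h z - h x‖

def St_CPT2 : Prop := ∀ (ι : Type) (U : Ultrafilter ι) (K : ℝ≥0) (H : ι → ℂ ≃ₜ ℂ) (a b : ℂ),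
  a ≠ b → Tendsto (fun i => H i 0) U (𝓝 a) → Tendsto (fun i => H i 1) U (𝓝 b) →
  (∀ i, QC K (H i)) →
  ∃ h : ℂ ≃ₜ ℂ, QC K h ∧ TendstoLocallyUniformly (fun i => (H i : ℂ → ℂ)) h U ∧
    TendstoLocallyUniformly (fun i => ((H i).symm : ℂ → ℂ)) h.symm U

def St_DIFF : Prop := ∀ (K : ℝ≥0) (h : ℂ ≃ₜ ℂ), QC K h → ∀ N : Set ℂ, volume N = 0 →
  ∃ z ∉ N, ∃ A : ℂ ≃L[ℝ] ℂ, HasFDerivAt h (A : ℂ →L[ℝ] ℂ) z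

end Pool.Agent.Lib.THU.EC
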