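import Pool.Agent.Lib.THU.EC.Basic

set_option autoImplicit false

/-!
Removable sets.
-/

namespace Pool.Agent.Lib.THU.EC

open MeasureTheory Set Metric Filter Topology
open scoped ENNReal NNReal ComplexConjugate Manifold

lemma exists_cutoff {Z : Set ℂ} (hZ : IsClosed Z) {d : ℝ} (hd : 0 < d) :
    ∃ χ : ℂ → ℝ, ContDiff ℝ 1 χ ∧ (∀ z, χ z ∈ Icc (0 : ℝ) 1) ∧ (∀ z ∈ Z, χ =ᶠ[𝓝 z] 1) ∧
      tsupport χ ⊆ thickening d Z := by
  obtain ⟨f, h1, h2, h3⟩ := exists_contMDiffMap_zero_one_nhds_of_isClosed (n := 1) 𝓘(ℝ, ℂ)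
    (isOpen_thickening (δ := d) (E := Z)).isClosed_compl hZ
    (disjoint_compl_left_iff_subset.2 (self_subset_thickening hd Z))
  refine ⟨f, f.contMDiff.contDiff, h3, fun z hz => h2.filter_mono (nhds_le_nhdsSet hz),
    fun z hz => by_contra fun h => ?_⟩
  exact (notMem_tsupport_iff_eventuallyEq.2 (h1.filter_mono (nhds_le_nhdsSet h))) hz

lemma En_thick {O Z : Set ℂ} {v : ℂ → ℂ} (hO : IsOpen O) (hZ : IsClosed Z)
    (hE : En v (O \ Z) < ∞) :
    Tendsto (fun n : ℕ => En v ((O ∩ thickening (1 / (n + 1)) Z) \ Z)) atTop (𝓝 0) := by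
  set ν := (volume : Measure ℂ).withDensity fun z => ‖fderiv ℝ v z‖ₑ ^ 2
  have hν : ∀ S, MeasurableSet S → En v S = ν S := fun S hS => (withDensity_apply _ hS).symm
  have hm : ∀ n : ℕ, MeasurableSet ((O ∩ thickening (1 / (n + 1)) Z) \ Z) := fun n =>
    (hO.inter isOpen_thickening).measurableSet.diff hZ.measurableSet
  have h := tendsto_measure_iInter_atTop (μ := ν) (fun n => (hm n).nullMeasurableSet)
    (fun m n hmn => sdiff_subset_sdiff_left (inter_subset_inter_right _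
      (thickening_mono (Nat.one_div_le_one_div hmn) Z)))
    ⟨0, by rw [← hν _ (hm 0)]; exact ((En_mono v (sdiff_subset_sdiff_left inter_subset_left)).trans_lt hE).ne⟩
  have e : ⋂ n : ℕ, (O ∩ thickening (1 / (n + 1)) Z) \ Z = ∅ := by
    refine eq_empty_of_forall_notMem fun z hz => ?_
    rw [mem_iInter] at hz
    refine (hz 0).2 (hZ.closure_subset ?_)
    rw [closure_eq_iInter_thickening]
    refine mem_iInter₂.2 fun δ hδ => ?_
    obtain ⟨n, hn⟩ := exists_nat_one_div_lt hδ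
    exact thickening_mono hn.le Z (hz n).1.2
  rw [e, measure_empty] at h
  exact h.congr fun n => (hν _ (hm n)).symm

theorem rem_of_app (hI : St_IBP) (hC : St_CUT) (Z : Set ℂ) (K : ℝ≥0) (hZ : IsClosed Z)
    (H : ∀ (O : Set ℂ) (v : ℂ → ℂ), IsOpen O → ContinuousOn v O →
      (∀ z ∈ O \ Z, ContDiffAt ℝ 1 v z) → En v (O \ Z) < ∞ → App O v (K * En v (O \ Z))) :
    Rem Z := by
  refine ⟨hZ, fun O v hO hv hd hE => hC O Z v _ hO hZ hv (wk_of_contDiff hd hE)
    fun η hη e ε hε => ?_⟩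
  have hη2 : ∫⁻ z, ‖η z‖ₑ ^ 2 < ∞ := by
    have := (hη.cd.continuous.memLp_of_hasCompactSupport (μ := volume) (p := 2) hη.cs).2
    rw [eLpNorm_lt_top_iff_lintegral_rpow_enorm_lt_top two_ne_zero ENNReal.ofNat_ne_top] at this
    simpa using this
  have h1 := ENNReal.Tendsto.mul_const (b := ∫⁻ z, ‖η z‖ₑ ^ 2) (ENNReal.Tendsto.const_mul
    (a := ‖e‖ₑ ^ 2) (ENNReal.Tendsto.const_mul (a := (K : ℝ≥0∞)) (En_thick hO hZ hE)
      (Or.inr ENNReal.coe_ne_top)) (Or.inr (ENNReal.pow_ne_top enorm_ne_top))) (Or.inr hη2.ne)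
  simp only [mul_zero, zero_mul] at h1
  obtain ⟨n, hn⟩ := (h1.eventually (gt_mem_nhds (a := ENNReal.ofReal ε ^ 2)
    (ENNReal.pow_pos (ENNReal.ofReal_pos.2 hε) 2))).exists
  have hp : (0 : ℝ) < 1 / (n + 1) := Nat.one_div_pos_of_nat
  obtain ⟨χ, c1, c2, c3, c4⟩ := exists_cutoff hZ (lt_min hε hp)
  refine ⟨χ, c1, c2, c3, fun z hz => thickening_mono (min_le_left _ _) Z
    (c4 (subset_tsupport _ hz)), ?_⟩
  have hs : tsupport (fun z => χ z * η z) ⊆ O ∩ thickening (1 / (n + 1)) Z :=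
    subset_inter ((tsupport_mul_subset_right (f := χ)).trans hη.sub)
      ((tsupport_mul_subset_left (g := η)).trans (c4.trans (thickening_mono (min_le_right _ _) Z)))
  have hc : HasCompactSupport fun z => χ z * η z := hη.cs.mul_left
  have h2 := hI _ v e _ (c1.mul hη.cd) hc (H _ v (hO.inter isOpen_thickening)
    (hv.mono inter_subset_left) (fun z hz => hd z ⟨hz.1.1, hz.2⟩)
    ((En_mono v (sdiff_subset_sdiff_left inter_subset_left)).trans_lt hE) _ hs hc)
  have h3 : ∫⁻ z, ‖χ z * η z‖ₑ ^ 2 ≤ ∫⁻ z, ‖η z‖ₑ ^ 2 := lintegral_mono fun z => by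
    have : ‖χ z * η z‖ ≤ ‖η z‖ := by
      rw [norm_mul, Real.norm_of_nonneg (c2 z).1]
      exact mul_le_of_le_one_left (norm_nonneg _) (c2 z).2
    gcongr
    exact enorm_le_iff_norm_le.2 this
  have h4 := (h2.trans (by gcongr)).trans_lt hn
  rw [ENNReal.pow_lt_pow_left_iff two_ne_zero, ← ofReal_norm_eq_enorm,
    ENNReal.ofReal_lt_ofReal_iff hε] at h4
  exact h4.le

theorem Rem.app (hM : St_M) {Z O : Set ℂ} {v : ℂ → ℂ} (hZ : Rem Z) (hO : IsOpen O)
    (hv : ContinuousOn v O) (hd : ∀ z ∈ O \ Z, ContDiffAt ℝ 1 v z) : App O v (En v (O \ Z)) := by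
  rcases eq_top_or_lt_top (En v (O \ Z)) with hE | hE
  · exact hE ▸ hM.2 O v hO hv
  refine (hM.1 O v _ hO (hZ.2 O v hO hv hd hE)).mono subset_rfl (le_of_eq ?_)
  rw [En, diff_eq, inter_comm, ← Measure.restrict_restrict hZ.1.measurableSet.compl,
    ← lintegral_indicator hZ.1.measurableSet.compl]
  refine lintegral_congr fun z => ?_
  by_cases hz : z ∈ Zᶜ
  · simp [hz]
  · simp [hz, enorm]

theorem Rem.image (hI : St_IBP) (hM : St_M) (hC : St_CUT) (hV : St_CV) {Z : Set ℂ} {K K' : ℝ≥0}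
    {f : ℂ ≃ₜ ℂ} (hZ : Rem Z) (hd : ∀ z ∉ Z, ContDiffAt ℝ 1 f z) (hK : Dist K f Zᶜ)
    (hT : TrOn univ K' f.symm) : Rem (f '' Z) := by
  refine rem_of_app hI hC _ (K' * K) (f.isClosedMap _ hZ.1) fun O v hO hv hv' _ => ?_
  have hO' : IsOpen (f ⁻¹' O) := hO.preimage f.continuous
  have hm : ∀ z ∈ f ⁻¹' O \ Z, f z ∈ O \ f '' Z := fun z hz =>
    ⟨hz.1, fun ⟨y, hy, e⟩ => hz.2 (f.injective e ▸ hy)⟩
  have h1 := hZ.app hM hO' (hv.comp f.continuous.continuousOn fun _ h => h)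
    fun z hz => (hv' _ (hm z hz)).comp z (hd z hz.2)
  have h2 := hV K f v (f ⁻¹' O \ Z) (hO'.measurableSet.diff hZ.1.measurableSet)
    f.injective.injOn (fun z hz => (hd z hz.2).differentiableAt one_ne_zero)
    (fun z hz => (hv' _ (hm z hz)).differentiableAt one_ne_zero) fun z hz => hK z hz.2
  have h3 : En v (f '' (f ⁻¹' O \ Z)) ≤ En v (O \ f '' Z) :=
    En_mono v (by rintro _ ⟨z, hz, rfl⟩; exact hm z hz)
  refine ((hT _ _ _ hO' h1).mono (fun z hz => ⟨trivial, by simpa using hz⟩) ?_).congr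
    fun z _ => by simp
  rw [ENNReal.coe_mul, mul_assoc]
  gcongr
  exact h2.trans (by gcongr)

theorem Rem.holo (hV : St_CV) (hD : St_DIST) (hW : St_WEYL) {Z O : Set ℂ} {v : ℂ → ℂ}
    (hZ : Rem Z) (hO : IsOpen O) (hv : ContinuousOn v O) (hi : InjOn v (O \ Z))
    (hd : ∀ z ∈ O \ Z, DifferentiableAt ℂ v z) : DifferentiableOn ℂ v O := by
  intro z₀ hz₀
  obtain ⟨r, hr, hs⟩ := nhds_basis_closedBall.mem_iff.1 (hO.mem_nhds hz₀)
  have hb : ball z₀ r ⊆ O := ball_subset_closedBall.trans hs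
  have hsub : ball z₀ r \ Z ⊆ O \ Z := sdiff_subset_sdiff_left hb
  have ho : IsOpen (O \ Z) := hO.sdiff hZ.1
  have hc : ∀ z ∈ O \ Z, ContDiffAt ℝ 1 v z := fun z hz =>
    ((DifferentiableOn.analyticAt (fun y hy => (hd y hy).differentiableWithinAt)
      (ho.mem_nhds hz)).contDiffAt (n := 1)).restrict_scalars ℝ
  have h1 := hV 1 v id (ball z₀ r \ Z) (measurableSet_ball.diff hZ.1.measurableSet)
    (hi.mono hsub) (fun z hz => (hc z (hsub hz)).differentiableAt one_ne_zero)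
    (fun z _ => differentiableAt_id) (hD.1 v _ fun z hz => hd z (hsub hz))
  have h2 : En v (ball z₀ r \ Z) < ∞ := by
    refine h1.trans_lt ?_
    rw [En_id, ENNReal.coe_one, one_mul]
    exact (measure_mono (image_mono (sdiff_subset.trans ball_subset_closedBall))).trans_lt
      ((isCompact_closedBall z₀ r).image_of_continuousOn (hv.mono hs)).measure_lt_top
  have h3 := hZ.2 _ v isOpen_ball (hv.mono hb) (fun z hz => hc z (hsub hz)) h2
  have h4 := hW _ v isOpen_ball (hv.mono hb) fun η hη => by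
    rw [h3.ibp η hη, h3.ibp η hη]
    have : ∀ z, η z • Zᶜ.indicator (fderiv ℝ v) z Complex.I =
        Complex.I * η z • Zᶜ.indicator (fderiv ℝ v) z 1 := fun z => by
      by_cases h0 : η z = 0
      · simp [h0]
      by_cases hz : z ∈ Zᶜ
      · have := (hd z (hsub ⟨hη.sub (subset_tsupport _ h0), hz⟩)).hasDerivAt.hasFDerivAt
        rw [indicator_of_mem hz, (this.restrictScalars ℝ).fderiv]
        simp
        ring
      · simp [hz]
    simp only [this]
    rw [integral_const_mul]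
    linear_combination (-∫ z, η z • Zᶜ.indicator (fderiv ℝ v) z 1) * Complex.I_mul_I
  exact (h4.differentiableAt (ball_mem_nhds z₀ hr)).differentiableWithinAt

theorem Rem.trOn (hM : St_M) (hV : St_CV) {Z D : Set ℂ} {K : ℝ≥0} {f : ℂ → ℂ} (hZ : Rem Z)
    (hD : IsOpen D) (hf : ContinuousOn f D) (hi : InjOn f (D \ Z))
    (hd : ∀ z ∈ D \ Z, ContDiffAt ℝ 1 f z) (hK : Dist K f (D \ Z)) : TrOn D K f := by
  intro O u c hO hu Q hQ hc
  refine AppQ.lim fun ε hε => ?_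
  have hK1 : (0 : ℝ) < K + 1 := by positivity
  obtain ⟨d, hd0, hd1⟩ := (hc.image_of_continuousOn (hf.mono fun z hz => (hQ hz).1)
    ).exists_cthickening_subset_open hO (by rintro _ ⟨z, hz, rfl⟩; exact (hQ hz).2)
  obtain ⟨w, h1, h2, h3⟩ := hu _ hd1 (hc.image_of_continuousOn
    (hf.mono fun z hz => (hQ hz).1)).cthickening (ε / (K + 1)) (by positivity)
  set O' := D ∩ f ⁻¹' thickening d (f '' Q)
  have hO' : IsOpen O' := hf.isOpen_inter_preimage hD isOpen_thickening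
  have hm : ∀ z ∈ O', f z ∈ cthickening d (f '' Q) := fun z hz =>
    thickening_subset_cthickening _ _ hz.2
  have hQ' : Q ⊆ O' := fun z hz => ⟨(hQ hz).1, self_subset_thickening hd0 _ ⟨z, hz, rfl⟩⟩
  have hsub : O' \ Z ⊆ D \ Z := sdiff_subset_sdiff_left inter_subset_left
  have h4 := hZ.app hM (v := w ∘ f) hO' (fun z hz =>
    (h1 _ (hm z hz)).continuousAt.comp_continuousWithinAt ((hf z hz.1).mono inter_subset_left))
    fun z hz => (h1 _ (hm z hz.1)).comp z (hd z (hsub hz))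
  have h5 := hV K f w (O' \ Z) (hO'.measurableSet.diff hZ.1.measurableSet) (hi.mono hsub)
    (fun z hz => (hd z (hsub hz)).differentiableAt one_ne_zero)
    (fun z hz => (h1 _ (hm z hz.1)).differentiableAt one_ne_zero) fun z hz => hK z (hsub hz)
  have h6 : En w (f '' (O' \ Z)) ≤ c + ENNReal.ofReal (ε / (K + 1)) :=
    (En_mono w (by rintro _ ⟨z, hz, rfl⟩; exact hm z hz.1)).trans h3
  refine ⟨w ∘ f, fun z hz => (h2 _ (hm z (hQ' hz))).trans ?_,
    (h4 Q hQ' hc).mono subset_rfl (h5.trans ((mul_le_mul_right h6 _).trans ?_))⟩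
  · exact div_le_self hε.le (le_add_of_nonneg_left K.2)
  · rw [mul_add, ← ENNReal.ofReal_coe_nnreal, ← ENNReal.ofReal_mul K.coe_nonneg]
    gcongr
    rw [mul_div_assoc', div_le_iff₀ hK1]
    nlinarith

theorem stREM (hI : St_IBP) (hM : St_M) (hC : St_CUT) (hV : St_CV) (hD : St_DIST)
    (hW : St_WEYL) : St_REM :=
  ⟨rem_of_app hI hC, fun _ _ _ _ hZ => hZ.image hI hM hC hV, fun _ _ _ hZ => hZ.holo hV hD hW,
    fun _ _ _ _ hZ => hZ.trOn hM hV⟩

end Pool.Agent.Lib.THU.EC
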