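import Pool.Agent.Lib.THU.EC.Basic

set_option autoImplicit false

/-!
Change of variables for the energy, and the algebra of the distortion.
-/

namespace Pool.Agent.Lib.THU.EC

open MeasureTheory Set Metric Filter Topology Complex
open scoped ENNReal NNReal ComplexConjugate

namespace CV

lemma det_eq (A : ℂ →L[ℝ] ℂ) : A.det = (A 1).re * (A I).im - (A I).re * (A 1).im := by
  rw [ContinuousLinearMap.det, ← LinearMap.det_toMatrix basisOneI, Matrix.det_fin_two]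
  simp [LinearMap.toMatrix_apply]

lemma apply_eq (A : ℂ →L[ℝ] ℂ) (u : ℂ) : A u = u.re * A 1 + u.im * A I := by
  conv_lhs => rw [show u = u.re • (1 : ℂ) + u.im • I by simp]
  rw [map_add, map_smul, map_smul]
  simp

lemma det_mul_sq (A : ℂ →L[ℝ] ℂ) (u : ℂ) : A.det * ‖u‖ ^ 2 = (conj (A u) * A (I * u)).im := by
  rw [det_eq, apply_eq A u, apply_eq A (I * u), Complex.sq_norm, normSq_apply]
  simp
  ring

lemma det_le (A : ℂ →L[ℝ] ℂ) (u : ℂ) : |A.det| * ‖u‖ ≤ ‖A‖ * ‖A u‖ := by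
  rcases eq_or_ne u 0 with rfl | h
  · simp
  have h1 : |A.det| * ‖u‖ ^ 2 ≤ ‖A u‖ * (‖A‖ * ‖u‖) := by
    rw [← abs_of_nonneg (sq_nonneg ‖u‖), ← abs_mul, det_mul_sq]
    refine (abs_im_le_norm _).trans ?_
    rw [norm_mul, norm_conj]
    exact mul_le_mul_of_nonneg_left (by simpa using A.le_opNorm (I * u)) (norm_nonneg _)
  exact le_of_mul_le_mul_right (by nlinarith) (norm_pos_iff.2 h)

lemma belt (K : ℝ≥0) (k : ℝ) (a μ : ℂ) (A : ℂ →L[ℝ] ℂ) (h : ∀ e, A e = a * (e + μ * conj e))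
    (h1 : ‖μ‖ ≤ k) (h2 : k < 1) (h3 : 1 + k ≤ K * (1 - k)) : ‖A‖ ^ 2 ≤ K * |A.det| := by
  have e1 : A.det = ‖a‖ ^ 2 * (1 - ‖μ‖ ^ 2) := by
    rw [det_eq, h, h, Complex.sq_norm, Complex.sq_norm, normSq_apply, normSq_apply]
    simp
    ring
  have e2 : ‖A‖ ≤ ‖a‖ * (1 + ‖μ‖) := by
    refine A.opNorm_le_bound (by positivity) fun e => ?_
    rw [h, norm_mul, mul_assoc]
    refine mul_le_mul_of_nonneg_left ((norm_add_le _ _).trans ?_) (norm_nonneg _)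
    rw [norm_mul, norm_conj]
    linarith
  have h0 := norm_nonneg μ
  have hK : (0 : ℝ) ≤ K := K.2
  have e3 : 1 + ‖μ‖ ≤ K * (1 - ‖μ‖) := by nlinarith
  rw [e1, abs_of_nonneg (mul_nonneg (sq_nonneg _) (by nlinarith))]
  calc ‖A‖ ^ 2 ≤ (‖a‖ * (1 + ‖μ‖)) ^ 2 := by gcongr
    _ = ‖a‖ ^ 2 * (1 + ‖μ‖) * (1 + ‖μ‖) := by ring
    _ ≤ ‖a‖ ^ 2 * (1 + ‖μ‖) * (K * (1 - ‖μ‖)) := by gcongr
    _ = _ := by ring

lemma det_comp (A B : ℂ →L[ℝ] ℂ) : (B.comp A).det = B.det * A.det :=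
  LinearMap.det_comp (B : ℂ →ₗ[ℝ] ℂ) (A : ℂ →ₗ[ℝ] ℂ)

end CV

open CV

theorem stCV : St_CV := by
  intro K f w S hS hi hf hw hd
  rw [En, En, lintegral_image_eq_lintegral_abs_det_fderiv_mul volume hS
    (fun z hz => (hf z hz).hasFDerivAt.hasFDerivWithinAt) hi,
    ← lintegral_const_mul' _ _ ENNReal.coe_ne_top]
  refine setLIntegral_mono' hS fun z hz => ?_
  rw [fderiv_comp z (hw z hz) (hf z hz), ← ofReal_norm, ← ofReal_norm,
    ← ENNReal.ofReal_pow (norm_nonneg _), ← ENNReal.ofReal_pow (norm_nonneg _),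
    ← ENNReal.ofReal_mul (abs_nonneg _), ← ENNReal.ofReal_coe_nnreal, ← ENNReal.ofReal_mul K.coe_nonneg]
  refine ENNReal.ofReal_le_ofReal ?_
  calc _ ≤ (‖fderiv ℝ w (f z)‖ * ‖fderiv ℝ f z‖) ^ 2 := by
        gcongr; exact ContinuousLinearMap.opNorm_comp_le _ _
    _ = ‖fderiv ℝ f z‖ ^ 2 * ‖fderiv ℝ w (f z)‖ ^ 2 := by ring
    _ ≤ K * |(fderiv ℝ f z).det| * ‖fderiv ℝ w (f z)‖ ^ 2 := by gcongr; exact hd z hz
    _ = _ := by ring

theorem stDIST : St_DIST := by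
  refine ⟨fun f S h z hz => ?_, fun S z _ => ?_, fun K K' f g S hf hg h1 h2 z hz => ?_,
    fun K A B h h1 => ?_, belt⟩
  · refine belt 1 0 (deriv f z) 0 _ (fun e => ?_) (by simp) one_pos (by simp)
    rw [((h z hz).hasDerivAt.hasFDerivAt.restrictScalars ℝ).fderiv]
    simp [mul_comm]
  · have e : fderiv ℝ (fun z : ℂ => conj z) z = (conjCLE : ℂ →L[ℝ] ℂ) :=
      (conjCLE : ℂ →L[ℝ] ℂ).fderiv
    rw [e, det_eq]
    simp
  · rw [fderiv_comp z (hg z hz) (hf z hz), det_comp, abs_mul]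
    have a1 := h1 z hz
    have a2 := h2 _ (mem_image_of_mem f hz)
    calc _ ≤ (‖fderiv ℝ g (f z)‖ * ‖fderiv ℝ f z‖) ^ 2 := by
          gcongr; exact ContinuousLinearMap.opNorm_comp_le _ _
      _ = ‖fderiv ℝ f z‖ ^ 2 * ‖fderiv ℝ g (f z)‖ ^ 2 := by ring
      _ ≤ (K * |(fderiv ℝ f z).det|) * (K' * |(fderiv ℝ g (f z)).det|) := by gcongr
      _ = _ := by push_cast; ring
  · have e : B.det * A.det = 1 := by
      rw [← det_comp, show B.comp A = ContinuousLinearMap.id ℝ ℂ from ContinuousLinearMap.ext h]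
      simp [ContinuousLinearMap.det]
    have e' : |B.det| * |A.det| = 1 := by rw [← abs_mul, e, abs_one]
    have hs : Function.Surjective A :=
      (LinearMap.injective_iff_surjective (f := (A : ℂ →ₗ[ℝ] ℂ))).1
        (Function.LeftInverse.injective h)
    have e2 : ‖B‖ ≤ |B.det| * ‖A‖ := by
      refine B.opNorm_le_bound (by positivity) fun x => ?_
      obtain ⟨u, rfl⟩ := hs x
      rw [h u, mul_assoc]
      calc ‖u‖ = |B.det| * (|A.det| * ‖u‖) := by rw [← mul_assoc, e', one_mul]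
        _ ≤ _ := mul_le_mul_of_nonneg_left (det_le A u) (abs_nonneg _)
    calc ‖B‖ ^ 2 ≤ (|B.det| * ‖A‖) ^ 2 := by gcongr
      _ = |B.det| ^ 2 * ‖A‖ ^ 2 := by ring
      _ ≤ |B.det| ^ 2 * (K * |A.det|) := by gcongr
      _ = K * |B.det| * (|B.det| * |A.det|) := by ring
      _ = _ := by rw [e', mul_one]

end Pool.Agent.Lib.THU.EC
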