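import Pool.Agent.Lib.THU.EC.Basic

set_option autoImplicit false

/-!
Energy calculus in the plane: bounds, equicontinuity and quasisymmetry.
-/

namespace Pool.Agent.Lib.THU.EC

open MeasureTheory Set Metric Filter Topology
open scoped ENNReal NNReal ComplexConjugate

lemma exists_cut (r : ℝ) (hr : 0 < r) : ∃ v : ℂ → ℂ, ContDiff ℝ 1 v ∧ En v univ < ∞ ∧
    ∀ z, ‖z‖ ≤ r → v z = z := by
  let χ : ContDiffBump (0 : ℂ) := ⟨r, 2 * r, hr, by linarith⟩
  have h1 : ContDiff ℝ 1 fun z : ℂ => χ z • z := χ.contDiff.smul contDiff_id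
  have h2 : HasCompactSupport fun z : ℂ => χ z • z := χ.hasCompactSupport.smul_right
  refine ⟨fun z => χ z • z, h1, ?_, fun z hz => ?_⟩
  · have h3 : Continuous (fderiv ℝ fun z : ℂ => χ z • z) := h1.continuous_fderiv one_ne_zero
    have h4 := (h3.memLp_of_hasCompactSupport (μ := volume) (p := 2) (h2.fderiv ℝ)).2
    rw [eLpNorm_lt_top_iff_lintegral_rpow_enorm_lt_top two_ne_zero ENNReal.ofNat_ne_top] at h4
    simpa [En] using h4
  · have : χ z = 1 := χ.one_of_mem_closedBall (by simpa [χ] using hz)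
    simp [this]

lemma lt_ofReal_add_one {c : ℝ≥0∞} (hc : c < ∞) : c < ENNReal.ofReal (c.toReal + 1) := by
  rw [ENNReal.lt_ofReal_iff_toReal_lt hc.ne]
  linarith

theorem stBND (hCL : St_CL) : St_BND := by
  intro K r
  set r' : ℝ := max r 1 + 1 with hr'
  have hr1 : 2 ≤ r' := by linarith [le_max_right r 1]
  have hr2 : r ≤ r' := by linarith [le_max_left r 1]
  obtain ⟨v, hv1, hv2, hv3⟩ := exists_cut (2 * r') (by linarith)
  set c : ℝ≥0∞ := K * En v univ with hc
  have hc1 : 7 * c < ∞ := ENNReal.mul_lt_top (by simp) (ENNReal.mul_lt_top (by simp) hv2)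
  set T : ℝ := 16 * ((7 * c).toReal + 1) with hT
  have hT0 : 0 < T := by positivity
  refine ⟨2 * Real.exp T, fun h h0 h1 hg z hz => ?_⟩
  have g0 : h.symm 0 = 0 := by rw [h.symm_apply_eq, h0]
  have g1 : h.symm 1 = 1 := by rw [h.symm_apply_eq, h1]
  have hA := hg univ v _ isOpen_univ (app_of_contDiff fun _ _ => hv1.contDiffAt)
  have hK : IsCompact {x : ℂ | 2 ≤ ‖x - 0‖ ∧ ‖x - 0‖ ≤ 2 * Real.exp T} := by
    refine (isCompact_closedBall (0 : ℂ) (2 * Real.exp T)).of_isClosed_subset ?_ fun x hx => ?_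
    · have cc : Continuous fun x : ℂ => ‖x - 0‖ := by fun_prop
      exact (isClosed_le continuous_const cc).inter (isClosed_le cc continuous_const)
    · simpa using hx.2
  obtain ⟨ρ, hρ, H⟩ := hCL (v ∘ h.symm) 0 2 (2 * Real.exp T) (1 / 4) c two_pos
    (by linarith [Real.add_one_lt_exp hT0.ne']) (by norm_num) (hA _ (by simp) hK) (by
      rw [mul_div_cancel_left₀ _ two_ne_zero, Real.log_exp]
      refine (lt_ofReal_add_one hc1).trans_eq (congrArg _ ?_)
      rw [hT]; ring)
  have hρ0 : 0 ≤ ρ := by linarith [hρ.1]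
  have key : ∀ x ∈ sphere (0 : ℂ) ρ, r' < ‖h.symm x‖ := by
    intro x0 hx0
    by_contra hn
    push Not at hn
    have hs : ∀ x ∈ sphere (0 : ℂ) ρ, ‖h.symm x - h.symm x0‖ < 1 / 2 →
        ‖h.symm x - h.symm x0‖ ≤ 1 / 4 := fun x hx hlt => by
      have e := H x hx x0 hx0
      have b : ‖h.symm x‖ ≤ 2 * r' := by
        linarith [norm_le_insert' (h.symm x) (h.symm x0)]
      rwa [Function.comp_apply, Function.comp_apply, hv3 _ b, hv3 _ (by linarith)] at e
    have hs2 : ∀ x ∈ sphere (0 : ℂ) ρ, ‖h.symm x - h.symm x0‖ ≤ 1 / 4 := fun x hx => by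
      by_contra hn2
      push Not at hn2
      have hn3 : 1 / 2 ≤ ‖h.symm x - h.symm x0‖ := by
        by_contra hn3
        exact hn2.not_ge (hs x hx (not_le.1 hn3))
      have pc : IsPreconnected (sphere (0 : ℂ) ρ) :=
        (isConnected_sphere (by simp) 0 hρ0).isPreconnected
      obtain ⟨y, hy, e⟩ := pc.intermediate_value hx0 hx
        (f := fun x => ‖h.symm x - h.symm x0‖) (by fun_prop)
        (show (1 / 3 : ℝ) ∈ _ from ⟨by simp, by linarith⟩)
      have := hs y hy (by linarith)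
      linarith
    have hm := mono_disc h.symm.continuous h.symm.isOpenMap hρ0 hs2
    have a0 := hm 0 (by simpa using hρ0)
    have a1 := hm 1 (by simp; linarith [hρ.1])
    rw [g0] at a0
    rw [g1] at a1
    have := norm_sub_le (1 - h.symm x0) (0 - h.symm x0)
    simp only [sub_sub_sub_cancel_right, sub_zero, norm_one] at this
    linarith
  by_contra hn
  push Not at hn
  have pc : IsPreconnected (closedBall (0 : ℂ) r') := (convex_closedBall _ _).isPreconnected
  obtain ⟨w, hw, e⟩ := pc.intermediate_value (a := 0) (b := z) (by simp; linarith)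
    (by simp; linarith) (f := fun x => ‖h x‖) (by fun_prop)
    (show ρ ∈ _ from ⟨by simpa [h0] using hρ0, by linarith [hρ.2]⟩)
  have := key (h w) (by simpa using e)
  rw [h.symm_apply_apply] at this
  exact this.not_ge (by simpa using hw)

theorem stEQC (hB : St_BND) (hO : St_OSC) (hQ : St_QC) : St_EQC := by
  intro K r ε hε
  obtain ⟨R, hR⟩ := hB K (r + 2)
  set c : ℝ≥0∞ := K * volume (ball (0 : ℂ) (R + 1)) with hc
  have hc1 : 7 * c < ∞ :=
    ENNReal.mul_lt_top (by simp) (ENNReal.mul_lt_top (by simp) measure_ball_lt_top)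
  set T : ℝ := ((7 * c).toReal + 1) / (ε / 2) ^ 2 with hT
  have hT0 : 0 < T := by positivity
  refine ⟨Real.exp (-T), Real.exp_pos _, fun h h0 h1 hq x y hx hy => ?_⟩
  have hA := hQ.2.2.2.2 K h (r + 2) (R + 1) hq.1 fun z hz => by
    have := hR h h0 h1 hq.2 z (mem_ball_zero_iff.1 hz).le
    rw [mem_ball_zero_iff]
    linarith
  have hsub : closedBall x 1 ⊆ ball 0 (r + 2) := fun z hz => by
    rw [mem_ball_zero_iff]
    rw [mem_closedBall, dist_eq_norm] at hz
    linarith [norm_le_insert' z x]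
  have := hO h x (Real.exp (-T)) 1 (ε / 2) c h.continuous h.isOpenMap (Real.exp_pos _)
    (Real.exp_lt_one_iff.2 (by linarith)) (half_pos hε) (hA _ hsub (isCompact_closedBall _ _)) (by
      rw [one_div, ← Real.exp_neg, neg_neg, Real.log_exp]
      refine (lt_ofReal_add_one hc1).trans_eq (congrArg _ ?_)
      rw [hT]; field_simp) y (by rwa [mem_closedBall, dist_eq_norm])
  linarith

theorem stQS (hB : St_BND) (hQ : St_QC) : St_QS := by
  intro K
  choose M hM using hB K
  refine ⟨M, fun h hq x y z R hxz hy => ?_⟩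
  have n1 : z - x ≠ 0 := sub_ne_zero.2 hxz.symm
  have n2 : h z - h x ≠ 0 := sub_ne_zero.2 fun e => hxz (h.injective e).symm
  let A : ℂ ≃ₜ ℂ := (Homeomorph.mulLeft₀ _ n1).trans (Homeomorph.addRight x)
  let B : ℂ ≃ₜ ℂ := (Homeomorph.mulLeft₀ _ (inv_ne_zero n2)).trans
    (Homeomorph.addRight (-((h z - h x)⁻¹ * h x)))
  have hA : ∀ w, A w = (z - x) * w + x := fun _ => rfl
  have hB : ∀ w, B w = (h z - h x)⁻¹ * w + -((h z - h x)⁻¹ * h x) := fun _ => rfl
  have q := hQ.1 _ _ _ _ (hQ.2.2.1 A _ _ hA) (hQ.1 _ _ _ _ hq (hQ.2.2.1 B _ _ hB))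
  rw [one_mul, mul_one] at q
  have e : ∀ w, (A.trans (h.trans B)) w = (h ((z - x) * w + x) - h x) / (h z - h x) := fun w => by
    rw [Homeomorph.trans_apply, Homeomorph.trans_apply, hA, hB]
    ring
  have := hM R _ (by rw [e]; simp) (by rw [e]; simp [n2]) q.2 ((y - x) / (z - x)) (by
    rwa [norm_div, div_le_iff₀ (norm_pos_iff.2 n1)])
  rwa [e, mul_div_cancel₀ _ n1, sub_add_cancel, norm_div, div_le_iff₀ (norm_pos_iff.2 n2)] at this

end Pool.Agent.Lib.THU.EC
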