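import Pool.Agent.Lib.THU.EC.Basic

set_option autoImplicit false

/-!
The length-area argument on circles.
-/

namespace Pool.Agent.Lib.THU.EC

open MeasureTheory Set Metric Filter Topology
open scoped ENNReal NNReal ComplexConjugate Real

namespace CL

lemma exists_angle {z x : ℂ} {r : ℝ} (hx : x ∈ sphere z r) :
    ∃ a ∈ Icc (-π) π, circleMap z r a = x := by
  refine ⟨(x - z).arg, ⟨(Complex.neg_pi_lt_arg _).le, Complex.arg_le_pi _⟩, ?_⟩
  have h : ‖x - z‖ = r := by simpa [dist_eq_norm] using hx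
  rw [circleMap, ← h, Complex.norm_mul_exp_arg_mul_I]
  ring

lemma arc {w : ℂ → ℂ} {z : ℂ} {r : ℝ} (hr : 0 < r) (hw : ∀ x ∈ sphere z r, ContDiffAt ℝ 1 w x)
    (hf : Continuous fun t => fderiv ℝ w (circleMap z r t)) {a b : ℝ} (ha : a ∈ Icc (-π) π)
    (hb : b ∈ Icc (-π) π) (hab : a ≤ b) :
    ‖w (circleMap z r b) - w (circleMap z r a)‖ ≤
      r * ∫ t in (-π)..π, ‖fderiv ℝ w (circleMap z r t)‖ := by
  have hd : ∀ t, HasDerivAt (fun t => w (circleMap z r t))
      (fderiv ℝ w (circleMap z r t) (circleMap 0 r t * Complex.I)) t := fun t =>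
    ((hw _ (circleMap_mem_sphere z hr.le t)).differentiableAt
      one_ne_zero).hasFDerivAt.comp_hasDerivAt t (hasDerivAt_circleMap z r t)
  have hc : Continuous fun t => fderiv ℝ w (circleMap z r t) (circleMap 0 r t * Complex.I) :=
    hf.clm_apply ((continuous_circleMap 0 r).mul continuous_const)
  rw [← intervalIntegral.integral_eq_sub_of_hasDerivAt (fun t _ => hd t)
    (hc.intervalIntegrable _ _), ← intervalIntegral.integral_const_mul]
  have hn : Continuous fun t => r * ‖fderiv ℝ w (circleMap z r t)‖ := continuous_const.mul hf.norm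
  refine (intervalIntegral.norm_integral_le_of_norm_le hab (Eventually.of_forall fun t _ => ?_)
    (hn.intervalIntegrable a b)).trans (intervalIntegral.integral_mono_interval ha.1 hab hb.2
      (Eventually.of_forall fun t => by positivity) (hn.intervalIntegrable _ _))
  refine (ContinuousLinearMap.le_opNorm _ _).trans_eq ?_
  simp [abs_of_pos hr, mul_comm]

/-- a circle on which `w` oscillates has large energy -/
lemma circle {w : ℂ → ℂ} {z x y : ℂ} {r D : ℝ} (hr : 0 < r) (hD : 0 ≤ D)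
    (hw : ∀ x ∈ sphere z r, ContDiffAt ℝ 1 w x) (hx : x ∈ sphere z r) (hy : y ∈ sphere z r)
    (h : D ≤ ‖w x - w y‖) : ENNReal.ofReal (D ^ 2 / (2 * π * r ^ 2)) ≤
      ∫⁻ t in Ioo (-π) π, ‖fderiv ℝ w (circleMap z r t)‖ₑ ^ 2 := by
  have hf : Continuous fun t => fderiv ℝ w (circleMap z r t) :=
    continuous_iff_continuousAt.2 fun t =>
      ((hw _ (circleMap_mem_sphere z hr.le t)).continuousAt_fderiv one_ne_zero).comp
        (continuous_circleMap z r).continuousAt
  have hπ := Real.pi_pos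
  have hle : -π ≤ π := by linarith
  set f : ℝ → ℝ := fun t => ‖fderiv ℝ w (circleMap z r t)‖ with hfd
  have hn : Continuous f := hf.norm
  have h1 : D ≤ r * ∫ t in (-π)..π, f t := by
    obtain ⟨a, ha, rfl⟩ := exists_angle hx
    obtain ⟨b, hb, rfl⟩ := exists_angle hy
    rcases le_total a b with e | e
    · exact h.trans ((norm_sub_rev _ _).trans_le (arc hr hw hf ha hb e))
    · exact h.trans (arc hr hw hf hb ha e)
  set a : ℝ := D / (2 * π * r) with ha
  have a0 : 0 ≤ a := by positivity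
  have h2 : ∫ t in (-π)..π, 2 * a * f t ≤ ∫ t in (-π)..π, (a ^ 2 + f t ^ 2) :=
    intervalIntegral.integral_mono_on hle ((continuous_const.mul hn).intervalIntegrable _ _)
      ((continuous_const.add (hn.pow 2)).intervalIntegrable _ _) fun t _ => by
        nlinarith [sq_nonneg (a - f t)]
  have hn2 : Continuous fun t => f t ^ 2 := hn.pow 2
  rw [intervalIntegral.integral_const_mul, intervalIntegral.integral_add intervalIntegrable_const
    (hn2.intervalIntegrable _ _), intervalIntegral.integral_const, smul_eq_mul] at h2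
  have h3 : D ^ 2 / (2 * π * r ^ 2) ≤ ∫ t in (-π)..π, f t ^ 2 := by
    have e1 : D / r ≤ ∫ t in (-π)..π, f t := by rwa [div_le_iff₀' hr]
    have e2 : D ^ 2 / (2 * π * r ^ 2) = 2 * a * (D / r) - (π - -π) * a ^ 2 := by
      rw [ha]; field_simp; ring
    have e3 := mul_le_mul_of_nonneg_left e1 (show 0 ≤ 2 * a by positivity)
    linarith
  refine (ENNReal.ofReal_le_ofReal h3).trans_eq ?_
  rw [intervalIntegral.integral_of_le hle, integral_Ioc_eq_integral_Ioo,
    ofReal_integral_eq_lintegral_ofReal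
      ((hn2.continuousOn.integrableOn_Icc (a := -π) (b := π)).mono_set Ioo_subset_Icc_self)
      (Eventually.of_forall fun t => sq_nonneg _)]
  refine lintegral_congr fun t => ?_
  rw [ENNReal.ofReal_pow (norm_nonneg _), ofReal_norm]

/-- the energy in polar coordinates -/
lemma polar (w : ℂ → ℂ) (z : ℂ) {s S : ℝ} (hs : 0 < s) :
    ∫⁻ r in Icc s S, ENNReal.ofReal r * ∫⁻ t in Ioo (-π) π, ‖fderiv ℝ w (circleMap z r t)‖ₑ ^ 2 ≤
      En w {x | s ≤ ‖x - z‖ ∧ ‖x - z‖ ≤ S} := by
  have hA : MeasurableSet {x : ℂ | s ≤ ‖x - z‖ ∧ ‖x - z‖ ≤ S} :=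
    (isClosed_Icc.preimage (f := fun x : ℂ => ‖x - z‖) (by fun_prop)).measurableSet
  have hF : Measurable fun x => ‖fderiv ℝ w x‖ₑ ^ 2 := (measurable_fderiv ℝ w).enorm.pow_const 2
  have hc : Continuous fun p : ℝ × ℝ => circleMap z p.1 p.2 := by unfold circleMap; fun_prop
  have hm : Measurable fun p : ℝ × ℝ =>
      ENNReal.ofReal p.1 * ‖fderiv ℝ w (circleMap z p.1 p.2)‖ₑ ^ 2 :=
    measurable_fst.ennreal_ofReal.mul (hF.comp hc.measurable)
  rw [En, ← lintegral_indicator hA, ← lintegral_add_left_eq_self _ z,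
    ← Complex.lintegral_comp_polarCoord_symm]
  calc _ = ∫⁻ p in Icc s S ×ˢ Ioo (-π) π,
        ENNReal.ofReal p.1 * ‖fderiv ℝ w (circleMap z p.1 p.2)‖ₑ ^ 2 := by
        rw [Measure.volume_eq_prod, setLIntegral_prod _ hm.aemeasurable]
        exact lintegral_congr fun r => (lintegral_const_mul' _ _ ENNReal.ofReal_ne_top).symm
    _ = ∫⁻ p in Icc s S ×ˢ Ioo (-π) π, ENNReal.ofReal p.1 •
        indicator {x : ℂ | s ≤ ‖x - z‖ ∧ ‖x - z‖ ≤ S} (fun x => ‖fderiv ℝ w x‖ₑ ^ 2)
          (z + Complex.polarCoord.symm p) := by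
        refine setLIntegral_congr_fun (measurableSet_Icc.prod measurableSet_Ioo) fun p hp => ?_
        have e : z + Complex.polarCoord.symm p = circleMap z p.1 p.2 := by
          simp [circleMap, Complex.exp_mul_I]
        have e' : ‖circleMap z p.1 p.2 - z‖ = p.1 := by
          simp [abs_of_pos (hs.trans_le hp.1.1)]
        simp only [smul_eq_mul]
        rw [e, indicator_of_mem (show circleMap z p.1 p.2 ∈ {x : ℂ | s ≤ ‖x - z‖ ∧ ‖x - z‖ ≤ S} from
          ⟨e'.symm ▸ hp.1.1, e'.symm ▸ hp.1.2⟩)]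
    _ ≤ _ := lintegral_mono_set (prod_mono (fun r hr => hs.trans_le hr.1) subset_rfl)

end CL

open CL in
theorem stCL : St_CL := by
  intro v z s S δ c hs hS hδ hv hc
  by_contra hn
  push Not at hn
  have hπ := Real.pi_pos
  have hL : 0 < Real.log (S / s) := Real.log_pos ((one_lt_div hs).2 hS)
  have ct : c ≠ ∞ := by
    rintro rfl
    simp at hc
  lift c to ℝ≥0 using ct
  have hc' : 7 * (c : ℝ) < δ ^ 2 * Real.log (S / s) := by
    have : ENNReal.ofReal (7 * (c : ℝ)) < ENNReal.ofReal (δ ^ 2 * Real.log (S / s)) := by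
      rwa [ENNReal.ofReal_mul (by norm_num), ENNReal.ofReal_coe_nnreal, ENNReal.ofReal_ofNat]
    exact (ENNReal.ofReal_lt_ofReal_iff (by positivity)).1 this
  have key : ∀ ε : ℝ, 0 < ε → ε < δ / 2 →
      (δ - 2 * ε) ^ 2 / (2 * π) * Real.log (S / s) ≤ c + ε := fun ε hε hε' => by
    obtain ⟨w, h1, h2, h3⟩ := hv ε hε
    have hA : ∀ r ∈ Icc s S, ∀ x ∈ sphere z r, s ≤ ‖x - z‖ ∧ ‖x - z‖ ≤ S := fun r hr x hx => by
      have h : ‖x - z‖ = r := by simpa [dist_eq_norm] using hx
      rw [h]; exact hr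
    have h4 : ∫⁻ r in Icc s S, ENNReal.ofReal ((δ - 2 * ε) ^ 2 / (2 * π) * r⁻¹) ≤
        c + ENNReal.ofReal ε := by
      refine (setLIntegral_mono' measurableSet_Icc fun r hr => ?_).trans ((polar w z hs).trans h3)
      have r0 : 0 < r := hs.trans_le hr.1
      obtain ⟨x, hx, y, hy, hxy⟩ := hn r hr
      have := circle (D := δ - 2 * ε) r0 (by linarith) (fun x hx => h1 x (hA r hr x hx)) hx hy (by
        have e : v x - v y = (w x - w y) - (w x - v x) + (w y - v y) := by ring
        have := norm_add_le ((w x - w y) - (w x - v x)) (w y - v y)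
        have := norm_sub_le (w x - w y) (w x - v x)
        have := h2 x (hA r hr x hx)
        have := h2 y (hA r hr y hy)
        rw [e] at hxy
        linarith)
      refine le_trans (le_of_eq ?_) (mul_le_mul_right this _)
      rw [← ENNReal.ofReal_mul r0.le]
      congr 1
      field_simp
    have hi : IntegrableOn (fun r : ℝ => (δ - 2 * ε) ^ 2 / (2 * π) * r⁻¹) (Icc s S) :=
      (continuousOn_const.mul (continuousOn_inv₀.mono fun r hr =>
        (hs.trans_le hr.1).ne')).integrableOn_Icc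
    rw [← ofReal_integral_eq_lintegral_ofReal hi ((ae_restrict_iff' measurableSet_Icc).2
      (Eventually.of_forall fun r hr => by have := hs.trans_le hr.1; positivity)),
      integral_Icc_eq_integral_Ioc, ← intervalIntegral.integral_of_le hS.le,
      intervalIntegral.integral_const_mul, integral_inv_of_pos hs (hs.trans hS),
      ← ENNReal.ofReal_coe_nnreal, ← ENNReal.ofReal_add c.coe_nonneg hε.le] at h4
    exact (ENNReal.ofReal_le_ofReal_iff (by positivity)).1 h4
  have lim : (δ - 2 * 0) ^ 2 / (2 * π) * Real.log (S / s) ≤ c + 0 := by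
    refine le_of_tendsto_of_tendsto (b := 𝓝[>] (0 : ℝ))
      (f := fun ε => (δ - 2 * ε) ^ 2 / (2 * π) * Real.log (S / s)) (g := fun ε => (c : ℝ) + ε)
      (tendsto_nhdsWithin_of_tendsto_nhds (Continuous.tendsto (by fun_prop) 0))
      (tendsto_nhdsWithin_of_tendsto_nhds (Continuous.tendsto (by fun_prop) 0)) ?_
    filter_upwards [Ioo_mem_nhdsGT (half_pos hδ)] with ε hε using key ε hε.1 hε.2
  rw [mul_zero, sub_zero, add_zero, div_mul_eq_mul_div, div_le_iff₀ (by positivity)] at lim
  nlinarith [Real.pi_lt_d2, c.coe_nonneg]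

theorem stOSC : St_OSC := by
  intro h z s S δ c hc ho hs hS hδ hv hl x hx
  obtain ⟨r, hr, H⟩ := stCL h z s S δ c hs hS hδ
    (hv.mono (fun x hx => mem_closedBall_iff_norm.2 hx.2) le_rfl) hl
  have r0 : 0 ≤ r := hs.le.trans hr.1
  have H' := mono_disc hc ho r0 fun y hy => H y hy _ (circleMap_mem_sphere z r0 0)
  have h1 := H' x (closedBall_subset_closedBall hr.1 hx)
  have h2 := H' z (mem_closedBall_self r0)
  linarith [norm_sub_le_norm_sub_add_norm_sub (h x) (h (circleMap z r 0)) (h z),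
    norm_sub_rev (h (circleMap z r 0)) (h z)]

end Pool.Agent.Lib.THU.EC
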