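import Pool.Agent.Lib.THU.EC.Basic

set_option autoImplicit false

/-!
Weak derivatives extend across closed sets that admit good cut-off functions.
-/

namespace Pool.Agent.Lib.THU.EC

open MeasureTheory Set Metric Filter Topology
open scoped ENNReal NNReal ComplexConjugate

lemma cut_test {O Z : Set ℂ} {η χ : ℂ → ℝ} (hη : Test O η) (h1 : ContDiff ℝ 1 χ)
    (h2 : ∀ z ∈ Z, χ =ᶠ[𝓝 z] 1) : Test (O \ Z) fun z => (1 - χ z) * η z := by
  refine ⟨(contDiff_const.sub h1).mul hη.cd, hη.cs.mul_left, fun z hz => ⟨hη.sub ?_, fun h => ?_⟩⟩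
  · exact tsupport_mul_subset_right hz
  · refine notMem_tsupport_iff_eventuallyEq.2 ?_ hz
    filter_upwards [h2 z h] with y hy
    simp [hy]

lemma cut_integrable {O Z : Set ℂ} {v : ℂ → ℂ} {G : ℂ → ℂ →L[ℝ] ℂ} {η : ℂ → ℝ} (hZ : IsClosed Z)
    (h : Wk (O \ Z) v G) (hη : Test O η) (e : ℂ) :
    Integrable fun z => η z • Zᶜ.indicator G z e := by
  have h0 : IntegrableOn (fun z => G z e) (Zᶜ ∩ tsupport η) :=
    (ContinuousLinearMap.apply ℝ ℂ e).integrable_comp
      (h.integrableOn (fun z hz => ⟨hη.sub hz.2, hz.1⟩)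
        ((measure_mono inter_subset_right).trans_lt hη.cs.measure_lt_top))
  have h1 : IntegrableOn (fun z => Zᶜ.indicator G z e) (tsupport η) := by
    have : (fun z => Zᶜ.indicator G z e) = Zᶜ.indicator fun z => G z e := funext fun z => by
      by_cases hz : z ∈ Zᶜ <;> simp [hz]
    rw [this]
    exact (integrableOn_indicator_iff hZ.measurableSet.compl).2 h0
  have h2 : IntegrableOn (fun z => η z • Zᶜ.indicator G z e) (tsupport η) :=
    h1.continuousOn_smul hη.cd.continuous.continuousOn hη.cs
  refine (integrableOn_iff_integrable_of_support_subset fun z hz => subset_tsupport _ ?_).1 h2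
  intro t
  simp [t] at hz

theorem stCUT : St_CUT := by
  intro O Z v G _ hZ hv h H
  have mZ := hZ.measurableSet.compl
  have eO : Zᶜ ∩ O = O \ Z := inter_comm _ _
  refine ⟨hv, ?_, ?_, fun η hη e => ?_⟩
  · rw [aestronglyMeasurable_indicator_iff mZ, Measure.restrict_restrict mZ, eO]
    exact h.meas
  · have : ∀ z, ‖Zᶜ.indicator G z‖ₑ ^ 2 = Zᶜ.indicator (fun z => ‖G z‖ₑ ^ 2) z := fun z => by
      by_cases hz : z ∈ Zᶜ <;> simp [hz, enorm]
    simp only [this]
    rw [lintegral_indicator mZ, Measure.restrict_restrict mZ, eO]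
    exact h.fin
  choose χ h1 h2 h3 h4 h5 using fun n : ℕ => H η hη e (1 / (n + 1)) Nat.one_div_pos_of_nat
  set F : ℂ → ℂ := fun z => η z • Zᶜ.indicator G z e with hF
  have iF : Integrable F := cut_integrable hZ h hη e
  have mF : ∀ n, AEStronglyMeasurable (fun z => χ n z • F z) volume := fun n =>
    (h1 n).continuous.aestronglyMeasurable.smul iF.1
  have bF : ∀ n z, ‖χ n z • F z‖ ≤ ‖F z‖ := fun n z => by
    rw [norm_smul, Real.norm_of_nonneg (h2 n z).1]
    exact mul_le_of_le_one_left (norm_nonneg _) (h2 n z).2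
  have iχ : ∀ n, Integrable fun z => χ n z • F z := fun n =>
    iF.norm.mono' (mF n) (Eventually.of_forall (bF n))
  have t1 : Tendsto (fun n => ∫ z, χ n z • F z) atTop (𝓝 0) := by
    have := tendsto_integral_of_dominated_convergence (f := fun _ => (0 : ℂ)) (fun z => ‖F z‖) mF
      iF.norm (fun n => Eventually.of_forall (bF n)) (Eventually.of_forall fun z => ?_)
    · simpa using this
    by_cases hz : z ∈ Z
    · simp [hF, hz]
    · obtain ⟨r, hr, hb⟩ := Metric.isOpen_iff.1 hZ.isOpen_compl z hz
      refine tendsto_const_nhds.congr' ?_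
      filter_upwards [tendsto_one_div_add_atTop_nhds_zero_nat.eventually (gt_mem_nhds hr)]
        with n hn
      have : χ n z = 0 := by
        by_contra t
        obtain ⟨y, hy, hd⟩ := mem_thickening_iff.1 (h4 n z t)
        exact hb (mem_ball'.2 (hd.trans hn)) hy
      simp [this]
  have t2 : Tendsto (fun n => ∫ z, fderiv ℝ (fun z => χ n z * η z) z e • v z) atTop (𝓝 0) :=
    squeeze_zero_norm h5 tendsto_one_div_add_atTop_nhds_zero_nat
  have key : ∀ n, (∫ z, fderiv ℝ (fun z => χ n z * η z) z e • v z) + ∫ z, χ n z • F z =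
      (∫ z, fderiv ℝ η z e • v z) + ∫ z, F z := fun n => by
    have a1 := cut_test hη (h1 n) (h3 n)
    have a2 : Test O fun z => χ n z * η z :=
      ⟨(h1 n).mul hη.cd, hη.cs.mul_left, tsupport_mul_subset_right.trans hη.sub⟩
    have a3 := h.ibp _ a1 e
    have a4 : ∀ z, ((1 - χ n z) * η z) • G z e = F z - χ n z • F z := fun z => by
      by_cases hz : z ∈ Z
      · simp [hF, hz, (h3 n z hz).eq_of_nhds]
      · simp only [hF, indicator_of_mem (mem_compl hz), smul_smul, ← sub_smul]
        congr 1
        ring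
    have a5 : ∀ z, fderiv ℝ (fun z => (1 - χ n z) * η z) z e • v z =
        fderiv ℝ η z e • v z - fderiv ℝ (fun z => χ n z * η z) z e • v z := fun z => by
      have : (fun z => (1 - χ n z) * η z) = fun z => η z - χ n z * η z := funext fun z => by ring
      rw [this, fderiv_fun_sub (hη.cd.differentiable one_ne_zero z)
        (a2.cd.differentiable one_ne_zero z), sub_apply, sub_smul]
    simp only [a4, a5] at a3
    rw [integral_sub iF (iχ n),
      integral_sub (hη.integrable_fderiv hv e) (a2.integrable_fderiv hv e)] at a3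
    linear_combination -a3
  have t3 := t2.add t1
  simp only [key, add_zero] at t3
  exact eq_neg_of_add_eq_zero_left (tendsto_nhds_unique tendsto_const_nhds t3)

end Pool.Agent.Lib.THU.EC
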