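import Pool.Agent.Lib.THU.EC.Basic

set_option autoImplicit false

/-!
Integration by parts bound for functions of finite relaxed energy.
-/

namespace Pool.Agent.Lib.THU.EC

open MeasureTheory Set Metric Filter Topology
open scoped ENNReal NNReal ComplexConjugate

/-- Cauchy-Schwarz inequality. -/
lemma IBP.cs {X : Type*} [MeasurableSpace X] (μ : Measure X) {f g : X → ℝ≥0∞}
    (hf : AEMeasurable f μ) (hg : AEMeasurable g μ) :
    (∫⁻ x, f x * g x ∂μ) ^ 2 ≤ (∫⁻ x, f x ^ 2 ∂μ) * ∫⁻ x, g x ^ 2 ∂μ := by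
  have := ENNReal.lintegral_mul_le_Lp_mul_Lq μ Real.HolderConjugate.two_two hf hg
  refine (pow_le_pow_left' this 2).trans_eq ?_
  rw [mul_pow, ← ENNReal.rpow_two, ← ENNReal.rpow_two, ← ENNReal.rpow_mul, ← ENNReal.rpow_mul]
  simp

lemma IBP.smooth {η : ℂ → ℝ} {w : ℂ → ℂ} (e : ℂ) (h1 : ContDiff ℝ 1 η) (h2 : HasCompactSupport η)
    (h3 : ∀ z ∈ tsupport η, ContDiffAt ℝ 1 w z) :
    ‖∫ z, fderiv ℝ η z e • w z‖ₑ ^ 2 ≤ ‖e‖ₑ ^ 2 * En w (tsupport η) * ∫⁻ z, ‖η z‖ₑ ^ 2 := by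
  have a : ‖∫ z, fderiv ℝ η z e • w z‖ₑ ≤
      ‖e‖ₑ * ∫⁻ z in tsupport η, ‖fderiv ℝ w z‖ₑ * ‖η z‖ₑ := by
    rw [stIBP0 η w e h1 h2 h3, enorm_neg, ← lintegral_const_mul' _ _ enorm_ne_top,
      ← setIntegral_eq_integral_of_forall_compl_eq_zero (s := tsupport η)
        fun z hz => by simp [image_eq_zero_of_notMem_tsupport hz]]
    refine (enorm_integral_le_lintegral_enorm _).trans (lintegral_mono fun z => ?_)
    rw [enorm_smul, mul_comm, ← mul_assoc, mul_comm ‖e‖ₑ]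
    gcongr
    exact ContinuousLinearMap.le_opENorm _ _
  refine (pow_le_pow_left' a 2).trans ?_
  rw [mul_pow, mul_assoc]
  gcongr
  refine (IBP.cs _ (measurable_fderiv ℝ w).enorm.aemeasurable
    h1.continuous.measurable.enorm.aemeasurable).trans ?_
  exact mul_le_mul' le_rfl (setLIntegral_le_lintegral _ _)

theorem stIBP : St_IBP := by
  intro η v e c h1 h2 h3
  have hN : ∫⁻ z, ‖η z‖ₑ ^ 2 < ∞ := by
    have := (h1.continuous.memLp_of_hasCompactSupport (p := 2) (μ := volume) h2).2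
    rw [eLpNorm_lt_top_iff_lintegral_rpow_enorm_lt_top two_ne_zero ENNReal.ofNat_ne_top] at this
    simpa using this
  have hd := continuous_fderiv_apply' h1 e
  have int : ∀ {E : Type} [NormedAddCommGroup E] [NormedSpace ℝ E] {F : ℂ → E},
      ContinuousOn F (tsupport η) → Integrable fun z => fderiv ℝ η z e • F z :=
    fun hF => integrable_smul_of hd h2 (tsupport_fderiv_apply η e) hF
  have iL : Integrable fun z => ‖fderiv ℝ η z e‖ := by
    simpa using (int (F := fun _ => (1 : ℝ)) continuousOn_const).norm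
  set x := ‖∫ z, fderiv ℝ η z e • v z‖
  set L := ∫ z, ‖fderiv ℝ η z e‖
  set N := ∫⁻ z, ‖η z‖ₑ ^ 2
  have key : ∀ ε : ℝ, 0 < ε → ENNReal.ofReal (x - ε * L) ^ 2 ≤
      ‖e‖ₑ ^ 2 * c * N + ENNReal.ofReal ε * (‖e‖ₑ ^ 2 * N) := fun ε hε => by
    obtain ⟨w, g1, g2, g3⟩ := h3 ε hε
    have hw : ContinuousOn w (tsupport η) := fun z hz => (g1 z hz).continuousAt.continuousWithinAt
    have b : ‖(∫ z, fderiv ℝ η z e • w z) - ∫ z, fderiv ℝ η z e • v z‖ ≤ ε * L := by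
      rw [← integral_sub (int hw) (int h3.cont), ← integral_const_mul]
      refine norm_integral_le_of_norm_le (iL.const_mul ε) (Eventually.of_forall fun z => ?_)
      rw [← smul_sub, norm_smul, mul_comm]
      by_cases hz : z ∈ tsupport η
      · exact mul_le_mul_of_nonneg_right (g2 z hz) (norm_nonneg _)
      · have : fderiv ℝ η z e = 0 := image_eq_zero_of_notMem_tsupport
          (f := fun z => fderiv ℝ η z e) fun h => hz (tsupport_fderiv_apply η e h)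
        simp [this]
    calc _ ≤ ‖∫ z, fderiv ℝ η z e • w z‖ₑ ^ 2 := by
          rw [← ofReal_norm_eq_enorm]
          gcongr
          linarith [norm_sub_norm_le (∫ z, fderiv ℝ η z e • v z) (∫ z, fderiv ℝ η z e • w z),
            norm_sub_rev (∫ z, fderiv ℝ η z e • v z) (∫ z, fderiv ℝ η z e • w z)]
      _ ≤ ‖e‖ₑ ^ 2 * (c + ENNReal.ofReal ε) * N := (IBP.smooth e h1 h2 g1).trans (by gcongr)
      _ = _ := by ring
  have t1 : Tendsto (fun ε : ℝ => ENNReal.ofReal (x - ε * L) ^ 2) (𝓝 0)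
      (𝓝 (ENNReal.ofReal (x - 0 * L) ^ 2)) :=
    ((ENNReal.continuous_pow 2).comp (ENNReal.continuous_ofReal.comp (by fun_prop))).tendsto 0
  have t2 : Tendsto (fun ε : ℝ => ‖e‖ₑ ^ 2 * c * N + ENNReal.ofReal ε * (‖e‖ₑ ^ 2 * N)) (𝓝 0)
      (𝓝 (‖e‖ₑ ^ 2 * c * N + ENNReal.ofReal 0 * (‖e‖ₑ ^ 2 * N))) :=
    tendsto_const_nhds.add (ENNReal.Tendsto.mul_const (ENNReal.continuous_ofReal.tendsto 0)
      (Or.inr (ENNReal.mul_ne_top (ENNReal.pow_ne_top enorm_ne_top) hN.ne)))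
  have := le_of_tendsto_of_tendsto (t1.mono_left (nhdsWithin_le_nhds (s := Ioi 0)))
    (t2.mono_left nhdsWithin_le_nhds) (eventually_nhdsWithin_of_forall key)
  simpa [x] using this

end Pool.Agent.Lib.THU.EC
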