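import Pool.Agent.Lib.THU.EC.Basic

/-!
The real line is removable.
-/

namespace Pool.Agent.Lib.THU.EC

open MeasureTheory Set Metric Filter Topology
open scoped ENNReal NNReal ComplexConjugate

namespace LINE

lemma strip_bound {f : ℂ → ℂ} {R d C : ℝ} (hR : 0 ≤ R) (hd : 0 ≤ d)
    (h1 : ∀ z, ‖f z‖ ≤ C) (h2 : ∀ z, R < |z.re| ∨ d < |z.im| → f z = 0) :
    ‖∫ z, f z‖ ≤ C * (4 * R * d) := by
  set S : Set ℂ := Complex.measurableEquivRealProd ⁻¹' (Icc (-R) R ×ˢ Icc (-d) d)
  have hv : volume S = ENNReal.ofReal (4 * R * d) := by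
    rw [Complex.volume_preserving_equiv_real_prod.measure_preimage
      (measurableSet_Icc.prod measurableSet_Icc).nullMeasurableSet, Measure.volume_eq_prod,
      Measure.prod_prod, Real.volume_Icc, Real.volume_Icc, ← ENNReal.ofReal_mul (by linarith)]
    congr 1
    ring
  rw [← setIntegral_eq_integral_of_forall_compl_eq_zero (s := S) fun z hz => h2 z ?_]
  · refine (norm_setIntegral_le_of_norm_le_const (hv ▸ ENNReal.ofReal_lt_top)
      fun z _ => h1 z).trans_eq ?_
    rw [Measure.real, hv, ENNReal.toReal_ofReal (by positivity)]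
  · by_contra t
    push Not at t
    exact hz ⟨abs_le.1 t.1, abs_le.1 t.2⟩

/-- an odd weight against a uniformly continuous function -/
lemma odd_bound {F : ℂ → ℂ} {ψ : ℝ → ℝ} {R d M ω : ℝ} (hR : 0 ≤ R) (hd : 0 ≤ d) (hω : 0 ≤ ω)
    (hF : Continuous F) (hK : HasCompactSupport F) (hψ : Continuous ψ)
    (odd : ∀ t, ψ (-t) = -ψ t) (hM : ∀ t, ‖ψ t‖ ≤ M) (h0 : ∀ t, d < |t| → ψ t = 0)
    (h1 : ∀ z, R < |z.re| → F z = 0) (h2 : ∀ z : ℂ, |z.im| ≤ d → ‖F z - F (conj z)‖ ≤ ω) :
    ‖∫ z : ℂ, ψ z.im • F z‖ ≤ M * ω * (4 * R * d) := by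
  have i1 : Integrable fun z : ℂ => ψ z.im • F z :=
    ((hψ.comp Complex.continuous_im).smul hF).integrable_of_hasCompactSupport hK.smul_left
  have i2 : Integrable fun z : ℂ => ψ (conj z).im • F (conj z) :=
    (integrable_comp Complex.conjLIE _).2 i1
  have e : ∫ z : ℂ, ψ (conj z).im • F (conj z) = ∫ z : ℂ, ψ z.im • F z :=
    integral_comp Complex.conjLIE fun z : ℂ => ψ z.im • F z
  have M0 : 0 ≤ M := (norm_nonneg _).trans (hM 0)
  have b := strip_bound (f := fun z => ψ z.im • F z + ψ (conj z).im • F (conj z)) (C := M * ω)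
    hR hd (fun z => ?_) fun z hz => ?_
  · rw [integral_add i1 i2, e, ← two_smul ℝ, norm_smul, Real.norm_two] at b
    linarith [norm_nonneg (∫ z : ℂ, ψ z.im • F z)]
  · rw [Complex.conj_im, odd, neg_smul, ← sub_eq_add_neg, ← smul_sub, norm_smul]
    rcases le_or_gt |z.im| d with t | t
    · exact mul_le_mul (hM _) (h2 z t) (norm_nonneg _) M0
    · rw [h0 _ t, norm_zero, zero_mul]; positivity
  · rcases hz with t | t
    · simp [h1 z t, h1 (conj z) (by simpa using t)]
    · simp [odd, h0 _ t]

end LINE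

open LINE in
theorem stLINE (hC : St_CUT) : St_LINE := by
  have cl : IsClosed RL := isClosed_eq Complex.continuous_im continuous_const
  refine ⟨cl, fun O v hO hv h1 h2 => hC O RL v _ hO cl hv (wk_of_contDiff h1 h2) ?_⟩
  intro η hη e ε hε
  let θ : ContDiffBump (0 : ℝ) := ⟨1 / 2, 1, by norm_num, by norm_num⟩
  have θ1 : ContDiff ℝ 1 θ := θ.contDiff
  have θc : Continuous (deriv θ) := θ1.continuous_deriv le_rfl
  obtain ⟨M, hM⟩ := θc.bounded_above_of_compact_support θ.hasCompactSupport.deriv
  have M0 : 0 ≤ M := (norm_nonneg _).trans (hM 0)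
  have va : ∀ z ∈ tsupport η, ContinuousAt v z := fun z hz =>
    hv.continuousAt (hO.mem_nhds (hη.sub hz))
  have c1 := continuous_smul_of (continuous_fderiv_apply' hη.cd e) (tsupport_fderiv_apply η e) va
  have c2 := continuous_smul_of hη.cd.continuous subset_rfl va
  have k1 : HasCompactSupport fun z => fderiv ℝ η z e • v z :=
    HasCompactSupport.smul_right (f := fun z => fderiv ℝ η z e)
      (hη.cs.of_isClosed_subset (isClosed_tsupport _) (tsupport_fderiv_apply η e))
  have k2 : HasCompactSupport fun z => η z • v z := hη.cs.smul_right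
  obtain ⟨C, hC1⟩ := c1.bounded_above_of_compact_support k1
  obtain ⟨R, R0, hR⟩ := hη.cs.isBounded.subset_closedBall_lt 0 (0 : ℂ)
  have out : ∀ z : ℂ, R < |z.re| → z ∉ tsupport η := fun z hz t =>
    (hz.trans_le (Complex.abs_re_le_norm z)).not_ge (by simpa using hR t)
  obtain ⟨ω, ω0, hω⟩ := exists_pos_mul_lt (half_pos hε) (‖e‖ * (M * (4 * R)))
  obtain ⟨δ, δ0, hδ⟩ := Metric.uniformContinuous_iff.1 (k2.uniformContinuous_of_continuous c2) ω ω0
  obtain ⟨d1, d10, hd1⟩ := exists_pos_mul_lt (half_pos hε) (C * (4 * R))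
  obtain ⟨d, d0, hd⟩ : ∃ d : ℝ, 0 < d ∧ d ≤ d1 ∧ d ≤ ε ∧ 2 * d < δ :=
    ⟨min d1 (min ε (δ / 3)), by positivity, min_le_left _ _,
      (min_le_right _ _).trans (min_le_left _ _), by
        linarith [(min_le_right d1 _).trans (min_le_right ε (δ / 3))]⟩
  have big : ∀ t : ℝ, d ≤ |t| → 1 ≤ |t / d| := fun t ht => by
    rwa [abs_div, abs_of_pos d0, one_le_div d0]
  have z0 : ∀ t : ℝ, d ≤ |t| → θ (t / d) = 0 := fun t ht =>
    θ.zero_of_le_dist (by simpa only [dist_zero_right, Real.norm_eq_abs] using big t ht)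
  have cd : ContDiff ℝ 1 fun z : ℂ => θ (z.im / d) :=
    θ1.comp (Complex.imCLM.contDiff.div_const d)
  refine ⟨fun z => θ (z.im / d), cd, fun z => ⟨θ.nonneg, θ.le_one⟩, fun z hz => ?_,
    fun z hz => ?_, ?_⟩
  · have t : Tendsto (fun z : ℂ => z.im / d) (𝓝 z) (𝓝 0) :=
      (Complex.continuous_im.div_const d).tendsto' z 0 (by rw [show z.im = 0 from hz, zero_div])
    exact t.eventually θ.eventuallyEq_one
  · refine mem_thickening_iff.2 ⟨z.re, Complex.ofReal_im _, ?_⟩
    have : |z.im| < d := not_le.1 fun t => hz (z0 _ t)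
    rw [Complex.dist_of_re_eq (Complex.ofReal_re _).symm, Complex.ofReal_im, Real.dist_0_eq_abs]
    exact this.trans_le hd.2.1
  · have fd : ∀ z : ℂ, fderiv ℝ (fun z : ℂ => θ (z.im / d) * η z) z e • v z =
        θ (z.im / d) • fderiv ℝ η z e • v z +
          (e.im / d) • deriv θ (z.im / d) • η z • v z := fun z => by
      have a1 : HasFDerivAt (fun z : ℂ => z.im / d) (d⁻¹ • Complex.imCLM) z := by
        simp only [div_eq_inv_mul]
        exact Complex.imCLM.hasFDerivAt.const_mul d⁻¹
      have a2 := ((θ1.differentiable one_ne_zero (z.im / d)).hasDerivAt.comp_hasFDerivAt z a1).mul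
        (hη.cd.differentiable one_ne_zero z).hasFDerivAt
      erw [a2.fderiv]
      simp only [smul_smul, ← add_smul]
      congr 1
      simp
      ring
    have ci : Continuous fun z : ℂ => z.im / d := Complex.continuous_im.div_const d
    simp only [fd]
    have i1 : Integrable fun z : ℂ => θ (z.im / d) • fderiv ℝ η z e • v z :=
      (cd.continuous.smul c1).integrable_of_hasCompactSupport k1.smul_left
    have i2 : Integrable fun z : ℂ => (e.im / d) • deriv θ (z.im / d) • η z • v z :=
      Integrable.smul (e.im / d) (((θc.comp ci).smul c2).integrable_of_hasCompactSupport k2.smul_left)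
    rw [integral_add i1 i2, integral_smul]
    have C0 : 0 ≤ C := (norm_nonneg _).trans (hC1 0)
    have b1 := strip_bound (f := fun z => θ (z.im / d) • fderiv ℝ η z e • v z) (C := C) R0.le d0.le
      (fun z => by
        rw [norm_smul, Real.norm_of_nonneg θ.nonneg]
        exact (mul_le_of_le_one_left (norm_nonneg _) θ.le_one).trans (hC1 z))
      fun z hz => by
        rcases hz with t | t
        · rw [image_eq_zero_of_notMem_tsupport (f := fun z => fderiv ℝ η z e)
            fun u => out z t (tsupport_fderiv_apply η e u), zero_smul, smul_zero]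
        · rw [z0 _ t.le, zero_smul]
    have b2 := odd_bound (ψ := fun t => deriv θ (t / d)) (M := M) R0.le d0.le ω0.le c2 k2
      (θc.comp (continuous_id.div_const d))
      (fun t => by
        have := deriv_comp_neg θ (t / d)
        simp only [θ.neg] at this
        rw [neg_div, this, neg_neg])
      (fun t => hM _)
      (fun t ht => by
        refine deriv_of_notMem_tsupport fun u => ?_
        rw [θ.tsupport_eq, mem_closedBall, dist_zero_right, Real.norm_eq_abs, abs_div,
          abs_of_pos d0, div_le_one d0] at u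
        exact ht.not_ge u)
      (fun z t => by rw [image_eq_zero_of_notMem_tsupport (out z t), zero_smul])
      fun z t => by
        rw [← dist_eq_norm]
        refine (hδ ?_).le
        rw [Complex.dist_self_conj]
        linarith [hd.2.2]
    refine (norm_add_le _ _).trans ?_
    rw [norm_smul, norm_div, Real.norm_of_nonneg d0.le, Real.norm_eq_abs]
    have b3 : |e.im| / d * ‖∫ z : ℂ, deriv θ (z.im / d) • η z • v z‖ ≤
        ‖e‖ / d * (M * ω * (4 * R * d)) := by
      gcongr
      exact Complex.abs_im_le_norm e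
    have b4 : ‖e‖ / d * (M * ω * (4 * R * d)) = ‖e‖ * (M * (4 * R)) * ω := by field_simp
    have b5 : C * (4 * R * d) ≤ C * (4 * R) * d1 := by
      rw [← mul_assoc C]
      gcongr
      exact hd.1
    linarith

end Pool.Agent.Lib.THU.EC
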