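import Pool.Agent.Lib.THU.EC.Basic

set_option autoImplicit false

/-!
Energy calculus in the plane: smoothing does not increase the energy; a Poincare inequality.
-/

namespace Pool.Agent.Lib.THU.EC

open MeasureTheory Set Metric Filter Topology
open scoped ENNReal NNReal

namespace MM

variable {O Q : Set ℂ} {v : ℂ → ℂ} {G : ℂ → ℂ →L[ℝ] ℂ} {ρ : ℂ → ℝ} {δ : ℝ} {z : ℂ}

lemma exists_radius (hO : IsOpen O) (hv : ContinuousOn v O) (hQ : Q ⊆ O) (hK : IsCompact Q)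
    {ε : ℝ} (hε : 0 < ε) : ∃ δ > 0, (∀ z ∈ Q, closedBall z δ ⊆ O) ∧
      ∀ z ∈ Q, ∀ y ∈ ball z δ, ‖v y - v z‖ ≤ ε := by
  obtain ⟨a, ha, h1⟩ := hK.exists_cthickening_subset_open hO hQ
  obtain ⟨b, hb, h2⟩ := Metric.uniformContinuousOn_iff.1
    ((hK.cthickening (r := a)).uniformContinuousOn_of_continuous (hv.mono h1)) ε hε
  have h3 : ∀ z ∈ Q, closedBall z (min a b) ⊆ cthickening a Q := fun z hz =>
    (closedBall_subset_closedBall (min_le_left _ _)).trans (closedBall_subset_cthickening hz a)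
  refine ⟨min a b, lt_min ha hb, fun z hz => (h3 z hz).trans h1, fun z hz y hy => ?_⟩
  rw [← dist_eq_norm]
  exact (h2 y (h3 z hz (ball_subset_closedBall hy)) z (self_subset_cthickening _ hz)
    ((mem_ball.1 hy).trans_le (min_le_right _ _))).le

lemma lint_one (h : Mol δ ρ) : ∫⁻ y, ENNReal.ofReal (ρ y) = 1 := by
  rw [← ofReal_integral_eq_lintegral_ofReal
    (h.test.cd.continuous.integrable_of_hasCompactSupport h.test.cs)
    (Eventually.of_forall h.nonneg), h.int, ENNReal.ofReal_one]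

lemma fderiv_le (hM : St_MOL) (h : Mol δ ρ) (hO : IsOpen O) (hW : Wk O v G)
    (hz : closedBall z δ ⊆ O) :
    ‖fderiv ℝ (conv ρ v) z‖ₑ ≤ ∫⁻ y in O, ENNReal.ofReal (ρ (z - y)) * ‖G y‖ₑ := by
  have key := (hM.2 δ ρ O v z h hO hW.cont hz).2.2.1 G hW
  have sup : (Function.support fun y => ENNReal.ofReal (ρ (z - y)) * ‖G y‖ₑ) ⊆ O := by
    intro y hy
    have h1 : ρ (z - y) ≠ 0 := fun e => by simp [e] at hy
    have h2 := h.test.sub (subset_tsupport _ h1)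
    refine hz (ball_subset_closedBall ?_)
    rw [mem_ball_zero_iff] at h2
    rwa [mem_ball, dist_comm, dist_eq_norm]
  rw [setLIntegral_eq_of_support_subset sup]
  set I := ∫⁻ y, ENNReal.ofReal (ρ (z - y)) * ‖G y‖ₑ with hI
  have bd : ∀ e, ‖fderiv ℝ (conv ρ v) z e‖ₑ ≤ I * ‖e‖ₑ := fun e => by
    rw [key e, hI, ← lintegral_mul_const' _ _ enorm_ne_top]
    refine (enorm_integral_le_lintegral_enorm _).trans (lintegral_mono fun y => ?_)
    rw [enorm_smul, Real.enorm_eq_ofReal (h.nonneg _), mul_assoc]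
    gcongr
    exact (G y).le_opENorm e
  rcases eq_or_ne I ∞ with hT | hT
  · rw [hT]; exact le_top
  rw [← ofReal_norm, ← ENNReal.ofReal_toReal hT]
  refine ENNReal.ofReal_le_ofReal
    (ContinuousLinearMap.opNorm_le_bound _ ENNReal.toReal_nonneg fun e => ?_)
  have := ENNReal.toReal_mono (ENNReal.mul_ne_top hT enorm_ne_top) (bd e)
  simpa using this

lemma meas_rho (h : Mol δ ρ) : Measurable fun p : ℂ × ℂ => ENNReal.ofReal (ρ (p.1 - p.2)) :=
  (h.test.cd.continuous.comp (continuous_fst.sub continuous_snd)).measurable.ennreal_ofReal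

lemma sq_le (h : Mol δ ρ) {g : ℂ → ℝ≥0∞} (hg : AEMeasurable g (volume.restrict O)) (z : ℂ) :
    (∫⁻ y in O, ENNReal.ofReal (ρ (z - y)) * g y) ^ 2 ≤
      ∫⁻ y in O, ENNReal.ofReal (ρ (z - y)) * g y ^ 2 := by
  let s : ℂ → ℝ≥0∞ := fun y => ENNReal.ofReal (√(ρ (z - y)))
  have hs : Measurable s :=
    (h.test.cd.continuous.comp (continuous_const.sub continuous_id)).sqrt.measurable.ennreal_ofReal
  have ss : ∀ y, s y * s y = ENNReal.ofReal (ρ (z - y)) := fun y => by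
    rw [← ENNReal.ofReal_mul (Real.sqrt_nonneg _), Real.mul_self_sqrt (h.nonneg _)]
  have H := ENNReal.lintegral_mul_le_Lp_mul_Lq (volume.restrict O) Real.HolderConjugate.two_two
    hs.aemeasurable (hs.aemeasurable.mul hg)
  have e1 : ∀ y, (s * (s * g)) y = ENNReal.ofReal (ρ (z - y)) * g y := fun y => by
    rw [Pi.mul_apply, Pi.mul_apply, ← mul_assoc, ss]
  have e2 : ∀ y, s y ^ (2 : ℝ) = ENNReal.ofReal (ρ (z - y)) := fun y => by
    rw [ENNReal.rpow_two, sq, ss]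
  have e3 : ∀ y, (s * g) y ^ (2 : ℝ) = ENNReal.ofReal (ρ (z - y)) * g y ^ 2 := fun y => by
    rw [ENNReal.rpow_two, Pi.mul_apply, mul_pow, sq (s y), ss]
  simp only [e1, e2, e3] at H
  have one : (∫⁻ y in O, ENNReal.ofReal (ρ (z - y))) ^ (1 / (2 : ℝ)) ≤ 1 := by
    refine ENNReal.rpow_le_one ((setLIntegral_le_lintegral _ _).trans_eq ?_) (by norm_num)
    rw [lintegral_sub_left_eq_self (fun y => ENNReal.ofReal (ρ y)) z, lint_one h]
  refine (pow_le_pow_left' (H.trans (mul_le_of_le_one_left' one)) 2).trans_eq ?_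
  rw [← ENNReal.rpow_two, ← ENNReal.rpow_mul]
  norm_num

lemma en_le (hM : St_MOL) (h : Mol δ ρ) (hO : IsOpen O) (hW : Wk O v G) (hQ : MeasurableSet Q)
    (hz : ∀ z ∈ Q, closedBall z δ ⊆ O) : En (conv ρ v) Q ≤ ∫⁻ z in O, ‖G z‖ₑ ^ 2 := by
  have hg : AEMeasurable (fun y => ‖G y‖ₑ) (volume.restrict O) := hW.meas.enorm
  calc En (conv ρ v) Q ≤ ∫⁻ z in Q, ∫⁻ y in O, ENNReal.ofReal (ρ (z - y)) * ‖G y‖ₑ ^ 2 :=
        setLIntegral_mono' hQ fun z k =>
          (pow_le_pow_left' (fderiv_le hM h hO hW (hz z k)) 2).trans (sq_le h hg z)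
    _ ≤ ∫⁻ z, ∫⁻ y in O, ENNReal.ofReal (ρ (z - y)) * ‖G y‖ₑ ^ 2 := setLIntegral_le_lintegral _ _
    _ = ∫⁻ y in O, ∫⁻ z, ENNReal.ofReal (ρ (z - y)) * ‖G y‖ₑ ^ 2 :=
        lintegral_lintegral_swap ((meas_rho h).aemeasurable.mul (hg.pow_const 2).comp_snd)
    _ = _ := lintegral_congr fun y => by
        rw [lintegral_mul_const' _ _ (ENNReal.pow_ne_top enorm_ne_top),
          lintegral_sub_right_eq_self (fun z => ENNReal.ofReal (ρ z)) y, lint_one h, one_mul]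

end MM

open MM

theorem stM (hM : St_MOL) : St_M := by
  refine ⟨fun O v G hO hW Q hQ hK ε hε => ?_, fun O v hO hv Q hQ hK ε hε => ?_⟩
  · obtain ⟨δ, hδ, h1, h2⟩ := exists_radius hO hW.cont hQ hK hε
    obtain ⟨ρ, h⟩ := hM.1 δ hδ
    exact ⟨conv ρ v, fun z hz => (hM.2 δ ρ O v z h hO hW.cont (h1 z hz)).1,
      fun z hz => (hM.2 δ ρ O v z h hO hW.cont (h1 z hz)).2.2.2 ε (h2 z hz),
      (en_le hM h hO hW hK.measurableSet h1).trans le_self_add⟩
  · obtain ⟨δ, hδ, h1, h2⟩ := exists_radius hO hv hQ hK hε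
    obtain ⟨ρ, h⟩ := hM.1 δ hδ
    exact ⟨conv ρ v, fun z hz => (hM.2 δ ρ O v z h hO hv (h1 z hz)).1,
      fun z hz => (hM.2 δ ρ O v z h hO hv (h1 z hz)).2.2.2 ε (h2 z hz), by simp⟩

theorem stPOI (hM : St_MOL) : St_POI := by
  intro O v G x y δ ω E hO hW hδ hE hs hG hx hy
  obtain ⟨ρ, h⟩ := hM.1 δ hδ
  have hc : 0 ≤ 2 / δ ^ 2 := by positivity
  have bd : ∀ z ∈ segment ℝ x y, ‖fderiv ℝ (conv ρ v) z‖ ≤ 2 / δ ^ 2 * E := fun z hz => by
    rw [← ENNReal.ofReal_le_ofReal_iff (mul_nonneg hc hE), ofReal_norm,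
      ENNReal.ofReal_mul hc]
    refine (fderiv_le hM h hO hW (hs z hz)).trans ?_
    calc _ ≤ ∫⁻ y in O, ENNReal.ofReal (2 / δ ^ 2) * ‖G y‖ₑ :=
          lintegral_mono fun y => by gcongr; exact h.le _
      _ = _ := lintegral_const_mul' _ _ ENNReal.ofReal_ne_top
      _ ≤ _ := by gcongr
  have mv := (convex_segment x y).norm_image_sub_le_of_norm_fderiv_le (𝕜 := ℝ)
    (fun z hz => (hM.2 δ ρ O v z h hO hW.cont (hs z hz)).1.differentiableAt one_ne_zero) bd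
    (left_mem_segment ℝ x y) (right_mem_segment ℝ x y)
  have ax := (hM.2 δ ρ O v x h hO hW.cont (hs x (left_mem_segment ℝ x y))).2.2.2 ω hx
  have ay := (hM.2 δ ρ O v y h hO hW.cont (hs y (right_mem_segment ℝ x y))).2.2.2 ω hy
  have t1 := norm_sub_le_norm_sub_add_norm_sub (v y) (conv ρ v y) (v x)
  have t2 := norm_sub_le_norm_sub_add_norm_sub (conv ρ v y) (conv ρ v x) (v x)
  rw [norm_sub_rev (v y) (conv ρ v y)] at t1
  have e : 2 * E * ‖y - x‖ / δ ^ 2 = 2 / δ ^ 2 * E * ‖y - x‖ := by ring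
  linarith

end Pool.Agent.Lib.THU.EC
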