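import Pool.Agent.Lib.THU.EC.Basic

set_option autoImplicit false

/-!
Energy calculus in the plane: mollifiers.
-/

namespace Pool.Agent.Lib.THU.EC

open MeasureTheory Set Metric Filter Topology
open scoped ENNReal NNReal ComplexConjugate

namespace MOL

variable {δ : ℝ} {ρ : ℂ → ℝ} {O : Set ℂ} {v : ℂ → ℂ} {z : ℂ}

lemma exists_mol (hδ : 0 < δ) : ∃ ρ, Mol δ ρ := by
  let φ : ContDiffBump (0 : ℂ) := ⟨δ / 2, 3 * δ / 4, by positivity, by linarith⟩
  refine ⟨φ.normed volume, ⟨φ.contDiff_normed, φ.hasCompactSupport_normed, ?_⟩, φ.nonneg_normed,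
    fun z => (φ.normed_le_div_measure_closedBall_rIn volume z).trans ?_, φ.integral_normed⟩
  · rw [φ.tsupport_normed_eq]
    exact closedBall_subset_ball (show 3 * δ / 4 < δ by linarith)
  · have e : (volume : Measure ℂ).real (closedBall 0 φ.rIn) = (δ / 2) ^ 2 * Real.pi := by
      rw [Measure.real, Complex.volume_closedBall, ENNReal.toReal_mul, ENNReal.toReal_pow,
        ENNReal.toReal_ofReal φ.rIn_pos.le]
      rfl
    rw [e, div_le_div_iff₀ (by positivity) (by positivity)]
    nlinarith [Real.pi_gt_three, sq_pos_of_pos hδ]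

lemma mem_ball_of (h : Mol δ ρ) {y : ℂ} (hy : z - y ∈ tsupport ρ) : y ∈ ball z δ := by
  simpa [dist_eq_norm, norm_sub_rev] using h.test.sub hy

lemma test_sub (h : Mol δ ρ) (hz : closedBall z δ ⊆ O) : Test O fun y => ρ (z - y) :=
  ⟨h.test.cd.comp (contDiff_const.sub contDiff_id),
    h.test.cs.comp_homeomorph (Homeomorph.subLeft z), fun y hy =>
    hz (ball_subset_closedBall (mem_ball_of h
      (closure_minimal (t := (fun y => z - y) ⁻¹' tsupport ρ) (fun _ e => subset_tsupport ρ e)
        ((isClosed_tsupport ρ).preimage (by fun_prop)) hy)))⟩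

lemma smooth (h : Mol δ ρ) (hO : IsOpen O) (hv : ContinuousOn v O) (hz : closedBall z δ ⊆ O) :
    ContDiffAt ℝ 1 (conv ρ v) z ∧
      ∀ e, fderiv ℝ (conv ρ v) z e = ∫ y, fderiv ℝ ρ (z - y) e • v y := by
  obtain ⟨r, hr, hK⟩ := (isCompact_closedBall z δ).exists_cthickening_subset_open hO hz
  set K := cthickening r (closedBall z δ)
  have cK : IsCompact K := (isCompact_closedBall z δ).cthickening
  have hi : LocallyIntegrable (K.indicator v) :=
    (((hv.mono hK).integrableOn_compact cK).integrable_indicator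
      cK.measurableSet).locallyIntegrable
  have key : ∀ φ : ℂ → ℝ, Function.support φ ⊆ tsupport ρ → ∀ x ∈ ball z r,
      convolution (K.indicator v) φ (ContinuousLinearMap.lsmul ℝ ℝ (E := ℂ)).flip volume x =
        ∫ y, φ (x - y) • v y := fun φ hφ x hx => by
    refine integral_congr_ae (Eventually.of_forall fun y => ?_)
    by_cases e : φ (x - y) = 0
    · simp [e]
    · have h1 := mem_ball_of h (hφ e)
      have : y ∈ K := mem_cthickening_of_dist_le y (y + (z - x)) r _
        (by rw [mem_closedBall, dist_eq_norm, show y + (z - x) - z = y - x by ring,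
          ← dist_eq_norm]; exact h1.le)
        (by rw [dist_eq_norm, show y - (y + (z - x)) = x - z by ring, ← dist_eq_norm]; exact hx.le)
      simp [this]
  have ev : conv ρ v =ᶠ[𝓝 z]
      convolution (K.indicator v) ρ (ContinuousLinearMap.lsmul ℝ ℝ (E := ℂ)).flip volume := by
    filter_upwards [ball_mem_nhds z hr] with x hx
    exact (key ρ (subset_tsupport ρ) x hx).symm
  refine ⟨(h.test.cs.contDiff_convolution_right _ hi h.test.cd).contDiffAt.congr_of_eventuallyEq
    ev, fun e => ?_⟩
  rw [ev.fderiv_eq, (h.test.cs.hasFDerivAt_convolution_right _ hi h.test.cd z).fderiv,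
    convolution_precompR_apply _ hi (h.test.cs.fderiv ℝ) (h.test.cd.continuous_fderiv one_ne_zero)]
  exact key _ ((subset_tsupport _).trans (tsupport_fderiv_apply ρ e)) z (mem_ball_self hr)

lemma weak (h : Mol δ ρ) (hz : closedBall z δ ⊆ O) {G : ℂ → ℂ →L[ℝ] ℂ} (hG : Wk O v G) (e : ℂ) :
    ∫ y, fderiv ℝ ρ (z - y) e • v y = ∫ y, ρ (z - y) • G y e := by
  have h1 := hG.ibp _ (test_sub h hz) e
  have h2 : ∀ y, fderiv ℝ (fun y => ρ (z - y)) y e = - fderiv ℝ ρ (z - y) e := fun y => by
    have := ((h.test.cd.differentiable one_ne_zero (z - y)).hasFDerivAt.comp y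
      ((hasFDerivAt_id y).const_sub z)).fderiv
    rw [show (fun y => ρ (z - y)) = ρ ∘ HSub.hSub z from rfl, this]
    simp
  simp only [h2, neg_smul, integral_neg] at h1
  exact neg_injective h1

lemma close (h : Mol δ ρ) (hv : ContinuousOn v O) (hz : closedBall z δ ⊆ O) {ω : ℝ}
    (hω : ∀ y ∈ ball z δ, ‖v y - v z‖ ≤ ω) : ‖conv ρ v z - v z‖ ≤ ω := by
  have t := test_sub h hz
  have h1 : ∫ y, ρ (z - y) = 1 := (integral_sub_left_eq_self ρ volume z).trans h.int
  have i1 := integrable_smul_of t.cd.continuous t.cs subset_rfl (hv.mono t.sub)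
  have i2 : Integrable fun y => ρ (z - y) := t.cd.continuous.integrable_of_hasCompactSupport t.cs
  have e : conv ρ v z - v z = ∫ y, ρ (z - y) • (v y - v z) := by
    simp only [smul_sub]
    rw [integral_sub i1 (i2.smul_const _), integral_smul_const, h1, one_smul, conv]
  rw [e]
  refine (norm_integral_le_of_norm_le (i2.mul_const ω) (Eventually.of_forall fun y => ?_)).trans_eq
    (by rw [integral_mul_const, h1, one_mul])
  rw [norm_smul, Real.norm_of_nonneg (h.nonneg _)]
  by_cases e : ρ (z - y) = 0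
  · simp [e]
  · exact mul_le_mul_of_nonneg_left (hω y (mem_ball_of h (subset_tsupport ρ e))) (h.nonneg _)

end MOL

theorem stMOL : St_MOL :=
  ⟨fun _ => MOL.exists_mol, fun _ _ _ _ _ h hO hv hz =>
    ⟨(MOL.smooth h hO hv hz).1, (MOL.smooth h hO hv hz).2,
      fun _ hG e => ((MOL.smooth h hO hv hz).2 e).trans (MOL.weak h hz hG e),
      fun _ => MOL.close h hv hz⟩⟩

end Pool.Agent.Lib.THU.EC
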