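import Pool.Agent.Lib.THU.EC.Basic

set_option autoImplicit false

/-!
An injective continuous map of the plane has one orientation at its points of differentiability.
-/

namespace Pool.Agent.Lib.THU.EC

open Set Metric Filter Topology Complex
open scoped ComplexConjugate

namespace OR

lemma const {g : ℝ → ℂ} {c : ℂ} (hg : Continuous g) (h : ∀ t, exp (g t) = c) (a b : ℝ) :
    g a = g b :=
  isCoveringMap_exp.const_of_comp hg (fun s t => Subtype.ext ((h s).trans (h t).symm)) a b

lemma exists_log {F : ℝ × ℝ → ℂ} (hF : Continuous F) (h : ∀ p, F p ≠ 0) :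
    ∃ L : ℝ × ℝ → ℂ, Continuous L ∧ ∀ p, exp (L p) = F p := by
  obtain ⟨L, ⟨-, hL⟩, -⟩ := isCoveringMap_exp.existsUnique_continuousMap_lifts
    (⟨fun p => ⟨F p, h p⟩, hF.subtype_mk _⟩ : C(ℝ × ℝ, {z : ℂ // z ≠ 0})) 0 (log (F 0))
    (Subtype.ext (exp_log (h 0)))
  exact ⟨L, L.continuous, fun p => congrArg Subtype.val (congrFun hL p)⟩

/-- the increment of a logarithm along a loop that is close to a circle -/
lemma wind {L : ℝ → ℂ} {c k : ℂ} {T : ℝ} (hL : Continuous L) (hT : exp (L T) = exp (L 0))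
    (hk : exp (k * T) = 1)
    (h : ∀ t : ℝ, ‖exp (L t) - c * exp (k * t)‖ < ‖c * exp (k * t)‖) : L T - L 0 = k * T := by
  have h0 : ∀ t : ℝ, c * exp (k * t) ≠ 0 := fun t e => by
    simpa [e] using (norm_nonneg _).trans_lt (h t)
  have h1 : ∀ t : ℝ, exp (L t) / (c * exp (k * t)) ∈ slitPlane := fun t => by
    have := mem_slitPlane_of_norm_lt_one (z := (exp (L t) - c * exp (k * t)) / (c * exp (k * t)))
      (by rw [norm_div, div_lt_one (norm_pos_iff.2 (h0 t))]; exact h t)
    rwa [sub_div, div_self (h0 t), add_sub_cancel] at this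
  have h2 : Continuous fun t : ℝ => log (exp (L t) / (c * exp (k * t))) :=
    Continuous.clog ((by fun_prop : Continuous fun t : ℝ => exp (L t)).div (by fun_prop) h0) h1
  have h3 := const (g := fun t : ℝ => L t - log (exp (L t) / (c * exp (k * t))) - k * t) (c := c)
    (by fun_prop) (fun t => by
      have := h0 t
      have h4 := left_ne_zero_of_mul this
      rw [exp_sub, exp_sub, exp_log (slitPlane_ne_zero (h1 t))]
      field_simp) T 0
  simp only [hT, hk, ofReal_zero, mul_zero, exp_zero] at h3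
  linear_combination h3

lemma decomp (A : ℂ →L[ℝ] ℂ) : ∃ a b : ℂ, (∀ u, A u = a * u + b * conj u) ∧
    A.det = ‖a‖ ^ 2 - ‖b‖ ^ 2 := by
  refine ⟨(A 1 - I * A I) / 2, (A 1 + I * A I) / 2, fun u => ?_, ?_⟩
  · have : A u = u.re * A 1 + u.im * A I := by
      conv_lhs => rw [show u = u.re • (1 : ℂ) + u.im • I by simp]
      rw [map_add, map_smul, map_smul, real_smul, real_smul]
    rw [this]
    apply Complex.ext <;> simp <;> ring
  · rw [ContinuousLinearMap.det, ← LinearMap.det_toMatrix basisOneI, Matrix.det_fin_two]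
    simp only [LinearMap.toMatrix_apply, ← normSq_eq_norm_sq, normSq_apply]
    simp
    ring

/-- on small circles the map is close to the dominant part of its derivative -/
lemma near {h : ℂ → ℂ} {A : ℂ →L[ℝ] ℂ} {x : ℂ} (hA : HasFDerivAt h A x) {P Q : ℂ → ℂ} {p q : ℝ}
    (e : ∀ u, A u = P u + Q u) (hP : ∀ u, ‖P u‖ = p * ‖u‖) (hQ : ∀ u, ‖Q u‖ = q * ‖u‖)
    (l : q < p) : ∀ᶠ u in 𝓝 (0 : ℂ), u ≠ 0 → ‖h (x + u) - h x - P u‖ < ‖P u‖ := by
  filter_upwards [(hasFDerivAt_iff_isLittleO_nhds_zero.1 hA).def (half_pos (sub_pos.2 l))]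
    with u hu h0
  have h1 := norm_add_le (h (x + u) - h x - A u) (Q u)
  rw [show h (x + u) - h x - A u + Q u = h (x + u) - h x - P u by rw [e]; ring, hQ] at h1
  rw [hP]
  nlinarith [norm_pos_iff.2 h0]

end OR

theorem stOR : St_OR := by
  intro h A B x y hc hi hA hB h1
  by_contra h2
  obtain ⟨a, b, e1, d1⟩ := OR.decomp A
  obtain ⟨a', b', e2, d2⟩ := OR.decomp B
  have n1 := OR.near hA e1 (fun u => norm_mul a u) (q := ‖b‖) (fun u => by simp)
    (lt_of_pow_lt_pow_left₀ 2 (norm_nonneg _) (by linarith))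
  have n2 := OR.near hB (P := fun u => b' * conj u) (Q := fun u => a' * u) (p := ‖b'‖)
    (fun u => by rw [e2, add_comm]) (fun u => by simp) (fun u => norm_mul a' u)
    (lt_of_pow_lt_pow_left₀ 2 (norm_nonneg _) (by linarith))
  obtain ⟨ρ, hρ, n⟩ := Metric.eventually_nhds_iff.1 (n1.and n2)
  set u : ℝ → ℂ := fun t => (ρ / 2 : ℝ) * exp (I * t) with hu
  have u1 : ∀ t, ‖u t‖ = ρ / 2 := fun t => by
    simp only [hu, norm_mul, norm_exp_I_mul_ofReal, mul_one, norm_real, Real.norm_eq_abs]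
    exact abs_of_pos (half_pos hρ)
  have u0 : ∀ t, u t ≠ 0 := fun t => norm_pos_iff.1 (u1 t ▸ half_pos hρ)
  have u2 : ∀ t, dist (u t) 0 < ρ := fun t => by rw [dist_zero_right, u1]; exact half_lt_self hρ
  have T : exp (I * (2 * Real.pi : ℝ)) = 1 := by
    rw [← exp_two_pi_mul_I]
    congr 1
    push_cast
    ring
  have u3 : u (2 * Real.pi) = u 0 := by simp only [hu, T, ofReal_zero, mul_zero, exp_zero]
  obtain ⟨L, hL, l⟩ := OR.exists_log
    (F := fun p => h (x + p.1 * (y - x) + u p.2) - h (x + p.1 * (y - x))) (by fun_prop)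
    fun p e => u0 p.2 (by simpa using hi (sub_eq_zero.1 e))
  have w0 := OR.wind (L := fun t => L (0, t)) (c := a * (ρ / 2 : ℝ)) (k := I) (by fun_prop)
    (by simp only [l, u3]) T fun t => by simpa [l, hu, mul_assoc] using (n (u2 t)).1 (u0 t)
  have w1 := OR.wind (L := fun t => L (1, t)) (c := b' * (ρ / 2 : ℝ)) (k := -I)
    (T := 2 * Real.pi) (by fun_prop) (by simp only [l, u3]) (by rw [neg_mul, exp_neg, T, inv_one])
    fun t => by simpa [l, hu, mul_assoc, ← exp_conj, map_ofNat] using (n (u2 t)).2 (u0 t)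
  have w := OR.const (g := fun s => L (s, 2 * Real.pi) - L (s, 0)) (c := 1) (by fun_prop)
    (fun s => by rw [exp_sub, div_eq_one_iff_eq (exp_ne_zero _), l, l, u3]) 0 1
  simp only [w0, w1] at w
  have := congrArg im w
  simp at this
  linarith [Real.pi_pos]

end Pool.Agent.Lib.THU.EC
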