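import Pool.Agent.Lib.THU.EC.Basic

set_option autoImplicit false

/-!
Finite sets are removable.
-/

namespace Pool.Agent.Lib.THU.EC

open MeasureTheory Set Metric Filter Topology
open scoped ENNReal NNReal

namespace PT

variable {O : Set ℂ} {v : ℂ → ℂ} {G G' : ℂ → ℂ →L[ℝ] ℂ}

lemma wk_ae (h : Wk O v G) (e : G =ᵐ[volume] G') : Wk O v G' :=
  ⟨h.cont, h.meas.congr (ae_restrict_of_ae e),
    (lintegral_congr_ae (by filter_upwards [ae_restrict_of_ae e] with z hz; rw [hz])).trans_lt h.fin,
    fun η hη u => (h.ibp η hη u).trans (congrArg Neg.neg (integral_congr_ae (by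
      filter_upwards [e] with z hz; rw [hz])))⟩

lemma bdd {φ : ℂ → ℝ} (hO : IsOpen O) (hv : ContinuousOn v O) (hφ : Continuous φ)
    (hc : HasCompactSupport φ) (hs : tsupport φ ⊆ O) : ∃ B, 0 ≤ B ∧ ∀ z, ‖φ z • v z‖ ≤ B := by
  obtain ⟨B, hB⟩ := (continuous_smul_of hφ hs fun z hz =>
    hv.continuousAt (hO.mem_nhds hz)).bounded_above_of_compact_support hc.smul_right
  exact ⟨B, (norm_nonneg _).trans (hB 0), hB⟩

lemma one (hC : St_CUT) (hO : IsOpen O) (hv : ContinuousOn v O) (p : ℂ) (h : Wk (O \ {p}) v G) :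
    Wk O v G := by
  refine wk_ae (hC O {p} v G hO isClosed_singleton hv h fun η hη e ε hε => ?_) (by
    filter_upwards [compl_mem_ae_iff.2 (measure_singleton p)] with z hz
    exact indicator_of_mem hz _)
  let θ : ContDiffBump (0 : ℂ) := ⟨1, 2, one_pos, one_lt_two⟩
  have θc : ContDiff ℝ 1 θ := θ.contDiff
  have cs : ∀ {φ : ℂ → ℝ}, HasCompactSupport φ → HasCompactSupport fun z => fderiv ℝ φ z e :=
    fun hφ => hφ.of_isClosed_subset (isClosed_tsupport _) (tsupport_fderiv_apply _ e)
  obtain ⟨B1, b1, h1⟩ := bdd hO hv (continuous_fderiv_apply' hη.cd e) (cs hη.cs)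
    ((tsupport_fderiv_apply η e).trans hη.sub)
  obtain ⟨B2, b2, h2⟩ := bdd hO hv hη.cd.continuous hη.cs hη.sub
  obtain ⟨B3, h3⟩ := (continuous_fderiv_apply' θc e).bounded_above_of_compact_support
    (cs θ.hasCompactSupport)
  have b3 := (norm_nonneg _).trans (h3 0)
  set M := B1 + B3 * B2
  have M0 : 0 ≤ M := by positivity
  set d := min 1 (ε / (16 * M + 2))
  have d0 : 0 < d := by positivity
  have d1 : d ≤ 1 := min_le_left _ _
  have d2 : d * (16 * M + 2) ≤ ε := (le_div_iff₀ (by positivity)).1 (min_le_right _ _)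
  have sc : ContDiff ℝ 1 fun z : ℂ => d⁻¹ • (z - p) := by fun_prop
  have ns : ∀ z : ℂ, ‖d⁻¹ • (z - p)‖ * d = ‖z - p‖ := fun z => by
    rw [norm_smul, Real.norm_of_nonneg (by positivity)]; field_simp
  refine ⟨fun z => θ (d⁻¹ • (z - p)), θc.comp sc, fun z => ⟨θ.nonneg, θ.le_one⟩, ?_,
    fun z hz => ?_, ?_⟩
  · rintro z rfl
    exact (sc.continuous.tendsto' z 0 (by simp)).eventually θ.eventuallyEq_one
  · have : d⁻¹ • (z - p) ∈ Function.support θ := hz
    rw [θ.support_eq, mem_ball_zero_iff] at this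
    rw [thickening_singleton, mem_ball_iff_norm, ← ns]
    have : ‖d⁻¹ • (z - p)‖ < 2 := this
    nlinarith [mul_nonneg d0.le M0]
  have key : ∀ z, fderiv ℝ (fun z => θ (d⁻¹ • (z - p)) * η z) z e • v z =
      θ (d⁻¹ • (z - p)) • fderiv ℝ η z e • v z +
        (d⁻¹ * fderiv ℝ θ (d⁻¹ • (z - p)) e) • η z • v z := fun z => by
    have := (((θc.differentiable one_ne_zero _).hasFDerivAt.comp z
      (((hasFDerivAt_id z).sub_const p).const_smul d⁻¹)).mul
        (hη.cd.differentiable one_ne_zero z).hasFDerivAt).fderiv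
    rw [show fderiv ℝ (fun z => θ (d⁻¹ • (z - p)) * η z) z = _ from this]
    simp only [ContinuousLinearMap.add_apply, ContinuousLinearMap.smul_apply,
      ContinuousLinearMap.comp_apply, ContinuousLinearMap.id_apply, map_smul, smul_eq_mul,
      smul_smul, ← add_smul, Function.comp, id, Pi.smul_apply]
    congr 1; ring
  refine (norm_integral_le_of_norm_le (g := (closedBall p (2 * d)).indicator fun _ => d⁻¹ * M)
    ((integrable_indicator_iff measurableSet_closedBall).2
      (integrableOn_const measure_closedBall_lt_top.ne)) (.of_forall fun z => ?_)).trans ?_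
  · rw [key]
    by_cases hz : z ∈ closedBall p (2 * d)
    · rw [indicator_of_mem hz]
      refine (norm_add_le _ _).trans ?_
      rw [norm_smul, norm_smul (d⁻¹ * _), norm_mul, Real.norm_of_nonneg θ.nonneg,
        Real.norm_of_nonneg (inv_pos.2 d0).le, mul_add, mul_assoc]
      have := θ.le_one (x := d⁻¹ • (z - p))
      have := one_le_inv₀ d0 |>.2 d1
      gcongr <;> first | linarith | apply h1 | apply h2 | apply h3
    · have h4 : d⁻¹ • (z - p) ∉ tsupport θ := fun t => hz (by
        rw [θ.tsupport_eq, mem_closedBall_zero_iff] at t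
        rw [mem_closedBall_iff_norm, ← ns]
        exact mul_le_mul_of_nonneg_right t d0.le)
      rw [indicator_of_notMem hz, image_eq_zero_of_notMem_tsupport h4,
        image_eq_zero_of_notMem_tsupport fun t => h4 (tsupport_fderiv_apply θ e t)]
      simp
  · rw [integral_indicator_const _ measurableSet_closedBall, Measure.real,
      Complex.volume_closedBall, ENNReal.toReal_mul, ENNReal.toReal_pow,
      ENNReal.toReal_ofReal (by positivity), smul_eq_mul, ENNReal.coe_toReal, NNReal.coe_real_pi]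
    calc _ = d * (4 * Real.pi * M) := by field_simp; ring
      _ ≤ d * (16 * M + 2) := by gcongr; nlinarith [Real.pi_le_four]
      _ ≤ ε := d2

end PT

theorem stPT (hM : St_M) (hR : St_R) (hC : St_CUT) : St_PT := by
  intro O P v c hO hP hv h
  rcases eq_top_or_lt_top c with rfl | hc
  · simpa using hM.2 O v hO hv
  obtain ⟨G, hG, hE⟩ := hR _ v c (hO.sdiff hP.isClosed) h hc
  have : Wk O v G := by
    clear hE h
    induction P, hP using Set.Finite.induction_on with
    | empty => simpa using hG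
    | @insert p P _ hP ih =>
      refine ih (PT.one hC (hO.sdiff hP.isClosed) (hv.mono sdiff_subset) p ?_)
      rwa [sdiff_sdiff, union_singleton]
  refine (hM.1 O v G hO this).mono subset_rfl (le_of_eq_of_le (setLIntegral_congr ?_) hE)
  exact (sdiff_null_ae_eq_self (hP.measure_zero _)).symm

end Pool.Agent.Lib.THU.EC
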