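import Pool.Agent.Lib.THU.EC.Basic

set_option autoImplicit false

/-!
Block R: finite relaxed energy gives a square integrable weak derivative.
-/

namespace Pool.Agent.Lib.THU.EC

open MeasureTheory Set Metric Filter Topology
open scoped ENNReal NNReal ComplexConjugate

lemma r_sq (f : ℂ → ℝ) : eLpNorm f 2 volume ^ 2 = ∫⁻ z, ‖f z‖ₑ ^ 2 := by
  rw [eLpNorm_eq_lintegral_rpow_enorm_toReal two_ne_zero ENNReal.ofNat_ne_top,
    ← ENNReal.rpow_two, ← ENNReal.rpow_mul]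
  simp

/-- test functions as a submodule -/
def rT (O : Set ℂ) : Submodule ℝ (ℂ → ℝ) where
  carrier := {η | Test O η}
  add_mem' := fun {a b} ha hb => ⟨ha.cd.add hb.cd, ha.cs.add hb.cs,
    (tsupport_add a b).trans (union_subset ha.sub hb.sub)⟩
  zero_mem' := ⟨contDiff_const, HasCompactSupport.zero, by simp⟩
  smul_mem' := fun a η h => ⟨h.cd.const_smul a, h.cs.smul_left (f := fun _ => a),
    (tsupport_smul_subset_right (fun _ => a) η).trans h.sub⟩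

lemma Test.memLp {O : Set ℂ} {η : ℂ → ℝ} (h : Test O η) : MemLp η 2 volume :=
  h.cd.continuous.memLp_of_hasCompactSupport h.cs

/-- test functions as square integrable functions -/
noncomputable def rJ (O : Set ℂ) : rT O →ₗ[ℝ] Lp ℝ 2 (volume : Measure ℂ) where
  toFun η := (Test.memLp η.2).toLp η.1
  map_add' a b := MemLp.toLp_add (Test.memLp a.2) (Test.memLp b.2)
  map_smul' a η := MemLp.toLp_const_smul a (Test.memLp η.2)

lemma r_riesz (O : Set ℂ) (L : rT O →ₗ[ℝ] ℝ) (C : ℝ≥0∞) (hC : C < ∞)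
    (bd : ∀ η : rT O, ‖L η‖ₑ ^ 2 ≤ C * ∫⁻ z, ‖η.1 z‖ₑ ^ 2) :
    ∃ g : ℂ → ℝ, MemLp g 2 volume ∧ ∫⁻ z, ‖g z‖ₑ ^ 2 ≤ C ∧
      ∀ η : rT O, L η = ∫ z, η.1 z * g z := by
  lift C to ℝ≥0 using hC.ne
  have h1 : ∀ η : rT O, ‖L η‖ ≤ Real.sqrt C * ‖rJ O η‖ := by
    intro η
    have h2 := bd η
    have h3 : ‖rJ O η‖ₑ = eLpNorm η.1 2 volume := Lp.enorm_toLp (Test.memLp η.2)
    rw [← r_sq, ← h3, enorm_eq_nnnorm, enorm_eq_nnnorm] at h2
    have h4 : ‖L η‖ ^ 2 ≤ C * ‖rJ O η‖ ^ 2 := by exact_mod_cast h2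
    refine abs_le_of_sq_le_sq' ?_ (by positivity) |>.2
    rw [mul_pow, Real.sq_sqrt C.coe_nonneg]
    exact h4
  obtain ⟨F, hF, hn⟩ := exists_extension_norm_eq (LinearMap.range (rJ O))
    (L.compLeftInverse (rJ O))
  have h5 : ∀ η : rT O, F (rJ O η) = L η := fun η =>
    (hF ⟨rJ O η, η, rfl⟩).trans (L.compLeftInverse_apply_of_bdd (rJ O) ⟨_, h1⟩ η _ rfl)
  have h6 : ‖F‖ ≤ Real.sqrt C := by
    rw [hn]
    refine ContinuousLinearMap.opNorm_le_bound _ (by positivity) ?_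
    rintro ⟨_, η, rfl⟩
    rw [L.compLeftInverse_apply_of_bdd (rJ O) ⟨_, h1⟩ η _ rfl]
    exact h1 η
  set g := (InnerProductSpace.toDual ℝ (Lp ℝ 2 (volume : Measure ℂ))).symm F with hg
  have h7 : ‖g‖ ≤ Real.sqrt C := by rw [hg, LinearIsometryEquiv.norm_map]; exact h6
  refine ⟨g, Lp.memLp g, ?_, fun η => ?_⟩
  · rw [← r_sq, ← Lp.enorm_def, enorm_eq_nnnorm]
    have : ‖g‖ ^ 2 ≤ C := by
      rw [← Real.sq_sqrt C.coe_nonneg]
      exact pow_le_pow_left₀ (norm_nonneg _) h7 2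
    exact_mod_cast this
  · rw [← h5, ← InnerProductSpace.toDual_symm_apply, ← hg, L2.inner_def]
    refine integral_congr_ae ?_
    filter_upwards [MemLp.coeFn_toLp (Test.memLp η.2)] with z hz
    have : (rJ O η : ℂ → ℝ) z = η.1 z := hz
    rw [this]
    simp

/-- the distributional derivative in the direction `e` -/
noncomputable def rL {O : Set ℂ} {v : ℂ → ℂ} (hv : ContinuousOn v O) (e : ℂ) : rT O →ₗ[ℝ] ℂ where
  toFun η := ∫ z, fderiv ℝ η.1 z e • v z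
  map_add' a b := by
    rw [← integral_add (Test.integrable_fderiv a.2 hv e) (Test.integrable_fderiv b.2 hv e)]
    refine integral_congr_ae (Eventually.of_forall fun z => ?_)
    have ha := (Test.cd a.2).differentiable one_ne_zero z
    have hb := (Test.cd b.2).differentiable one_ne_zero z
    simp only [Submodule.coe_add]
    rw [fderiv_add ha hb, add_apply, add_smul]
  map_smul' a η := by
    rw [RingHom.id_apply, ← integral_smul]
    refine integral_congr_ae (Eventually.of_forall fun z => ?_)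
    have ha := (Test.cd η.2).differentiable one_ne_zero z
    simp only [Submodule.coe_smul]
    rw [fderiv_const_smul ha, smul_apply, smul_assoc]

lemma r_part {O : Set ℂ} (L : rT O →ₗ[ℝ] ℂ) {c : ℝ≥0∞} (hc : c < ∞)
    (bd : ∀ η : rT O, ‖L η‖ₑ ^ 2 ≤ c * ∫⁻ z, ‖η.1 z‖ₑ ^ 2) (π : ℂ →ₗ[ℝ] ℝ)
    (hπ : ∀ z, ‖π z‖ ≤ ‖z‖) : ∃ g : ℂ → ℝ, MemLp g 2 volume ∧ ∫⁻ z, ‖g z‖ₑ ^ 2 ≤ c ∧
      ∀ η : rT O, π (L η) = ∫ z, η.1 z * g z := by
  refine r_riesz O (π ∘ₗ L) c hc fun η => le_trans ?_ (bd η)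
  have h1 : ‖π (L η)‖ₑ ≤ ‖L η‖ₑ := enorm_le_iff_norm_le.2 (hπ _)
  exact pow_le_pow_left' h1 2

lemma r_norm (a b : ℝ) : ‖-((a : ℂ) + b * Complex.I)‖ₑ ^ 2 = ‖a‖ₑ ^ 2 + ‖b‖ₑ ^ 2 := by
  have : ‖-((a : ℂ) + b * Complex.I)‖ ^ 2 = ‖a‖ ^ 2 + ‖b‖ ^ 2 := by
    rw [norm_neg, Complex.sq_norm, Complex.normSq_add_mul_I]
    simp
  have h2 : ‖-((a : ℂ) + b * Complex.I)‖₊ ^ 2 = ‖a‖₊ ^ 2 + ‖b‖₊ ^ 2 := NNReal.eq this
  rw [enorm_eq_nnnorm, enorm_eq_nnnorm, enorm_eq_nnnorm, ← ENNReal.coe_pow, h2]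
  simp

lemma r_cx {O : Set ℂ} (L : rT O →ₗ[ℝ] ℂ) {c : ℝ≥0∞} (hc : c < ∞)
    (bd : ∀ η : rT O, ‖L η‖ₑ ^ 2 ≤ c * ∫⁻ z, ‖η.1 z‖ₑ ^ 2) : ∃ g : ℂ → ℂ, MemLp g 2 volume ∧
      ∫⁻ z, ‖g z‖ₑ ^ 2 ≤ 2 * c ∧ ∀ η : rT O, L η = - ∫ z, η.1 z • g z := by
  obtain ⟨g1, m1, n1, e1⟩ := r_part L hc bd Complex.reLm Complex.abs_re_le_norm
  obtain ⟨g2, m2, n2, e2⟩ := r_part L hc bd Complex.imLm Complex.abs_im_le_norm
  have k1 : MemLp (fun z => (g1 z : ℂ)) 2 volume := Complex.ofRealCLM.comp_memLp' m1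
  have k2 : MemLp (fun z => (g2 z : ℂ)) 2 volume := Complex.ofRealCLM.comp_memLp' m2
  refine ⟨fun z => -((g1 z : ℂ) + g2 z * Complex.I), (k1.add (k2.mul_const _)).neg,
    ?_, fun η => ?_⟩
  · simp only [r_norm]
    rw [lintegral_add_left' (m1.1.enorm.pow_const 2), two_mul]
    exact add_le_add n1 n2
  · have i1 : Integrable fun z => η.1 z * g1 z := (Test.memLp η.2).integrable_mul m1
    have i2 : Integrable fun z => η.1 z * g2 z := (Test.memLp η.2).integrable_mul m2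
    have j1 : Integrable fun z => ((η.1 z * g1 z : ℝ) : ℂ) := Complex.ofRealCLM.integrable_comp i1
    have j2 : Integrable fun z => ((η.1 z * g2 z : ℝ) : ℂ) := Complex.ofRealCLM.integrable_comp i2
    have h1 : ∀ z, η.1 z • -((g1 z : ℂ) + g2 z * Complex.I) =
        -(((η.1 z * g1 z : ℝ) : ℂ) + ((η.1 z * g2 z : ℝ) : ℂ) * Complex.I) := by
      intro z
      simp only [Complex.real_smul, Complex.ofReal_mul]
      ring
    simp only [h1]
    rw [integral_neg, neg_neg, integral_add j1 (j2.mul_const _), integral_mul_const,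
      integral_complex_ofReal, integral_complex_ofReal, ← e1, ← e2]
    exact (Complex.re_add_im _).symm

lemma r_dir (hI : St_IBP) {O : Set ℂ} {v : ℂ → ℂ} {c : ℝ≥0∞} (hO : IsOpen O) (h : App O v c)
    (hc : c < ∞) (e : ℂ) (he : ‖e‖ₑ = 1) : ∃ g : ℂ → ℂ, MemLp g 2 volume ∧
      ∫⁻ z, ‖g z‖ₑ ^ 2 ≤ 2 * c ∧
      ∀ η, Test O η → ∫ z, fderiv ℝ η z e • v z = - ∫ z, η z • g z := by
  have hv := h.cont hO
  obtain ⟨g, h1, h2, h3⟩ := r_cx (rL hv e) hc fun η => by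
    have := hI η.1 v e c (Test.cd η.2) (Test.cs η.2) (h _ (Test.sub η.2) (Test.cs η.2))
    rwa [he, one_pow, one_mul] at this
  exact ⟨g, h1, h2, fun η hη => h3 ⟨η, hη⟩⟩

theorem stR (hI : St_IBP) : St_R := by
  intro O v c hO h hc
  obtain ⟨g1, m1, n1, e1⟩ := r_dir hI hO h hc 1 (by simp)
  obtain ⟨g2, m2, n2, e2⟩ := r_dir hI hO h hc Complex.I (by simp [enorm_eq_nnnorm])
  let G : ℂ → ℂ →L[ℝ] ℂ := fun z =>
    Complex.reCLM.smulRight (g1 z) + Complex.imCLM.smulRight (g2 z)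
  have hG : ∀ z e, G z e = e.re • g1 z + e.im • g2 z := fun z e => by simp [G]
  have hn : ∀ z, ‖G z‖ₑ ^ 2 ≤ ‖g1 z‖ₑ ^ 2 + ‖g2 z‖ₑ ^ 2 := by
    intro z
    have h1 : ‖G z‖ ≤ Real.sqrt (‖g1 z‖ ^ 2 + ‖g2 z‖ ^ 2) := by
      refine ContinuousLinearMap.opNorm_le_bound _ (by positivity) fun e => ?_
      have h2 : ‖G z e‖ ≤ |e.re| * ‖g1 z‖ + |e.im| * ‖g2 z‖ := by
        rw [hG]
        refine (norm_add_le _ _).trans_eq ?_
        rw [norm_smul, norm_smul, Real.norm_eq_abs, Real.norm_eq_abs]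
      refine h2.trans (abs_le_of_sq_le_sq' ?_ (by positivity)).2
      rw [mul_pow, Real.sq_sqrt (by positivity), Complex.sq_norm e, Complex.normSq_apply]
      nlinarith [sq_nonneg (|e.re| * ‖g2 z‖ - |e.im| * ‖g1 z‖), sq_abs e.re, sq_abs e.im]
    have h2 : ‖G z‖ ^ 2 ≤ ‖g1 z‖ ^ 2 + ‖g2 z‖ ^ 2 := by
      rw [← Real.sq_sqrt (show 0 ≤ ‖g1 z‖ ^ 2 + ‖g2 z‖ ^ 2 by positivity)]
      exact pow_le_pow_left₀ (norm_nonneg _) h1 2
    rw [enorm_eq_nnnorm, enorm_eq_nnnorm, enorm_eq_nnnorm]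
    exact_mod_cast h2
  have hE : ∫⁻ z in O, ‖G z‖ₑ ^ 2 ≤ 4 * c := by
    refine (setLIntegral_le_lintegral _ _).trans ((lintegral_mono hn).trans ?_)
    rw [lintegral_add_left' (m1.1.enorm.pow_const 2), show (4 : ℝ≥0∞) = 2 + 2 by norm_num, add_mul]
    exact add_le_add n1 n2
  refine ⟨G, ⟨h.cont hO, ?_, hE.trans_lt (ENNReal.mul_lt_top ENNReal.ofNat_lt_top hc), ?_⟩, hE⟩
  · refine AEStronglyMeasurable.restrict (AEStronglyMeasurable.add ?_ ?_)
    · exact (ContinuousLinearMap.smulRightL ℝ ℂ ℂ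
        Complex.reCLM).continuous.comp_aestronglyMeasurable m1.1
    · exact (ContinuousLinearMap.smulRightL ℝ ℂ ℂ
        Complex.imCLM).continuous.comp_aestronglyMeasurable m2.1
  · intro η hη e
    have hv := h.cont hO
    have i1 : Integrable fun z => η z • g1 z := memLp_one_iff_integrable.1 (m1.smul hη.memLp)
    have i2 : Integrable fun z => η z • g2 z := memLp_one_iff_integrable.1 (m2.smul hη.memLp)
    have h1 : ∀ z, fderiv ℝ η z e • v z =
        e.re • (fderiv ℝ η z 1 • v z) + e.im • (fderiv ℝ η z Complex.I • v z) := by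
      intro z
      have : e = e.re • (1 : ℂ) + e.im • Complex.I := by
        simp [Complex.re_add_im]
      conv_lhs => rw [this, map_add, map_smul, map_smul, add_smul, smul_assoc, smul_assoc]
    have h2 : ∀ z, η z • G z e = e.re • (η z • g1 z) + e.im • (η z • g2 z) := by
      intro z
      rw [hG, smul_add, smul_comm (η z), smul_comm (η z)]
    have j1 : Integrable fun z => e.re • (fderiv ℝ η z 1 • v z) :=
      (hη.integrable_fderiv hv 1).smul e.re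
    have j2 : Integrable fun z => e.im • (fderiv ℝ η z Complex.I • v z) :=
      (hη.integrable_fderiv hv Complex.I).smul e.im
    have j3 : Integrable fun z => e.re • (η z • g1 z) := i1.smul e.re
    have j4 : Integrable fun z => e.im • (η z • g2 z) := i2.smul e.im
    simp only [h1, h2]
    rw [integral_add j1 j2, integral_add j3 j4,
      integral_smul, integral_smul, integral_smul, integral_smul, e1 η hη, e2 η hη]
    simp only [smul_neg, neg_add]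

end Pool.Agent.Lib.THU.EC
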