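import Pool.Agent.Lib.THU.EC.Basic

set_option autoImplicit false

/-!
The lemma of Weyl for continuous functions.
-/

namespace Pool.Agent.Lib.THU.EC

open MeasureTheory Set Metric Filter Topology

namespace WEYL

lemma test_refl {δ : ℝ} {ρ : ℂ → ℝ} {O : Set ℂ} {z : ℂ} (h : Mol δ ρ) (hO : closedBall z δ ⊆ O) :
    Test O fun y => ρ (z - y) := by
  have e : tsupport (fun y => ρ (z - y)) ⊆ closedBall z δ := by
    refine closure_minimal (fun y hy => ?_) isClosed_closedBall
    have := h.test.sub (subset_tsupport ρ hy)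
    rw [mem_ball_zero_iff] at this
    rw [mem_closedBall, dist_comm, dist_eq_norm]
    exact this.le
  exact ⟨h.test.cd.comp (contDiff_const.sub contDiff_id),
    (isCompact_closedBall z δ).of_isClosed_subset (isClosed_tsupport _) e, e.trans hO⟩

lemma fderiv_refl {ρ : ℂ → ℝ} (h : ContDiff ℝ 1 ρ) (z y e : ℂ) :
    fderiv ℝ (fun y => ρ (z - y)) y e = - fderiv ℝ ρ (z - y) e := by
  have h1 : HasFDerivAt (fun y => ρ (z - y)) _ y :=
    (h.differentiable one_ne_zero (z - y)).hasFDerivAt.comp y ((hasFDerivAt_id y).const_sub z)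
  rw [h1.fderiv]
  simp

end WEYL

open WEYL in
theorem stWEYL (hM : St_MOL) : St_WEYL := by
  intro O v hO hv H z₀ hz₀
  obtain ⟨R, hR, hB⟩ := nhds_basis_closedBall.mem_iff.1 (hO.mem_nhds hz₀)
  obtain ⟨r, rfl⟩ : ∃ r, R = r + r := ⟨R / 2, by ring⟩
  have hr : 0 < r := by linarith
  have hδ : ∀ n : ℕ, 0 < r / (n + 1) := fun n => by positivity
  have hδ' : ∀ n : ℕ, r / (n + 1) ≤ r := fun n => div_le_self hr.le (by simp)
  choose ρ hρ using fun n => hM.1 _ (hδ n)
  have hs : ∀ n : ℕ, ∀ z ∈ ball z₀ r, closedBall z (r / (n + 1)) ⊆ closedBall z₀ (r + r) :=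
    fun n z hz => closedBall_subset_closedBall' (by linarith [hδ' n, mem_ball.1 hz])
  have key := fun n z hz => hM.2 _ (ρ n) O v z (hρ n) hO hv ((hs n z hz).trans hB)
  have h1 : ∀ n, DifferentiableOn ℂ (conv (ρ n) v) (ball z₀ r) := fun n z hz => by
    obtain ⟨k1, k2, -⟩ := key n z hz
    refine (differentiableAt_complex_iff_differentiableAt_real.2
      ⟨k1.differentiableAt one_ne_zero, ?_⟩).differentiableWithinAt
    have := H _ (test_refl (hρ n) ((hs n z hz).trans hB))
    simp only [fderiv_refl (hρ n).test.cd, neg_smul, integral_neg, ← k2] at this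
    rw [smul_eq_mul]
    linear_combination Complex.I * this +
      (fderiv ℝ (conv (ρ n) v) z) Complex.I * Complex.I_mul_I
  have h2 : TendstoUniformlyOn (fun n => conv (ρ n) v) v atTop (ball z₀ r) := by
    refine Metric.tendstoUniformlyOn_iff.2 fun ε hε => ?_
    obtain ⟨δ, hd, hu⟩ := Metric.uniformContinuousOn_iff.1
      ((isCompact_closedBall z₀ (r + r)).uniformContinuousOn_of_continuous (hv.mono hB))
      (ε / 2) (half_pos hε)
    have h3 : Tendsto (fun n : ℕ => r / ((n : ℝ) + 1)) atTop (𝓝 0) :=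
      tendsto_const_nhds.div_atTop (tendsto_natCast_atTop_atTop.atTop_add tendsto_const_nhds)
    filter_upwards [h3.eventually (gt_mem_nhds hd)] with n hn z hz
    rw [dist_comm, dist_eq_norm]
    refine ((key n z hz).2.2.2 (ε / 2) fun y hy => ?_).trans_lt (half_lt_self hε)
    rw [← dist_eq_norm]
    exact (hu y (hs n z hz (ball_subset_closedBall hy)) z
      (hs n z hz (mem_closedBall_self (hδ n).le)) ((mem_ball.1 hy).trans hn)).le
  exact ((h2.tendstoLocallyUniformlyOn.differentiableOn (Eventually.of_forall h1)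
    isOpen_ball).differentiableAt (ball_mem_nhds z₀ hr)).differentiableWithinAt

end Pool.Agent.Lib.THU.EC
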