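import Pool.Agent.Lib.THU.EC.AE
import Pool.Agent.Lib.THU.EC.BND
import Pool.Agent.Lib.THU.EC.CL
import Pool.Agent.Lib.THU.EC.CPT
import Pool.Agent.Lib.THU.EC.CUT
import Pool.Agent.Lib.THU.EC.CV
import Pool.Agent.Lib.THU.EC.IBP
import Pool.Agent.Lib.THU.EC.LINE
import Pool.Agent.Lib.THU.EC.M
import Pool.Agent.Lib.THU.EC.MOL
import Pool.Agent.Lib.THU.EC.OR
import Pool.Agent.Lib.THU.EC.PT
import Pool.Agent.Lib.THU.EC.R
import Pool.Agent.Lib.THU.EC.REM
import Pool.Agent.Lib.THU.EC.TR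
import Pool.Agent.Lib.THU.EC.WEYL

set_option autoImplicit false

/-!
Energy calculus in the plane: all interface statements, unconditionally.
-/

namespace Pool.Agent.Lib.THU.EC

theorem hIBP0 : St_IBP0 := stIBP0
theorem hIBP : St_IBP := stIBP
theorem hMOL : St_MOL := stMOL
theorem hM : St_M := stM hMOL
theorem hPOI : St_POI := stPOI hMOL
theorem hWEYL : St_WEYL := stWEYL hMOL
theorem hCV : St_CV := stCV
theorem hDIST : St_DIST := stDIST
theorem hCUT : St_CUT := stCUT
theorem hLINE : St_LINE := stLINE hCUT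
theorem hR : St_R := stR hIBP
theorem hPT : St_PT := stPT hM hR hCUT
theorem hREM : St_REM := stREM hIBP hM hCUT hCV hDIST hWEYL
theorem hTR : St_TR := stTR hCV hPT
theorem hQC : St_QC := stQC hTR hDIST
theorem hCL : St_CL := stCL
theorem hOSC : St_OSC := stOSC
theorem hBND : St_BND := stBND hCL
theorem hEQC : St_EQC := stEQC hBND hOSC hQC
theorem hQS : St_QS := stQS hBND hQC
theorem hCPT : St_CPT := stCPT hBND hEQC hTR
theorem hCPT2 : St_CPT2 := stCPT2 hCPT hQC
theorem hINV : St_INV := stINV hCPT hQC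
theorem hOR : St_OR := stOR
theorem hAE : St_AE := stAE hM hPOI hOSC
theorem hDIFF : St_DIFF := stDIFF hAE hR hPOI hINV hQC

end Pool.Agent.Lib.THU.EC
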