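import Pool.Agent.Lib.THU.EC.Basic

set_option autoImplicit false

/-!
Almost everywhere differentiability of open maps of finite energy.
-/

namespace Pool.Agent.Lib.THU.EC

open MeasureTheory Set Metric Filter Topology
open scoped ENNReal NNReal

namespace AE

lemma small {f : ℂ → ℝ≥0∞} {z : ℂ} {L : ℝ≥0∞} {a : ℝ}
    (h : Tendsto (fun S => (∫⁻ y in S, f y) / volume S)
      ((Besicovitch.vitaliFamily (volume : Measure ℂ)).filterAt z) (𝓝 L))
    (ha : L < ENNReal.ofReal a) :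
    ∀ᶠ r in 𝓝[>] (0 : ℝ), ∫⁻ y in closedBall z r, f y ≤ ENNReal.ofReal (4 * a * r ^ 2) := by
  have a0 : 0 ≤ a := (ENNReal.ofReal_pos.1 (lt_of_le_of_lt (zero_le) ha)).le
  filter_upwards [(h.comp (Besicovitch.tendsto_filterAt volume z)).eventually (gt_mem_nhds ha),
    self_mem_nhdsWithin] with r h1 hr
  have h2 := (ENNReal.div_le_iff_le_mul (Or.inl (measure_closedBall_pos volume z hr).ne')
    (Or.inl measure_closedBall_lt_top.ne)).1 h1.le
  refine h2.trans ?_
  rw [Complex.volume_closedBall, ← ENNReal.ofReal_pow (le_of_lt hr), ← ENNReal.ofReal_coe_nnreal,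
    ← ENNReal.ofReal_mul (by positivity), ← ENNReal.ofReal_mul a0]
  refine ENNReal.ofReal_le_ofReal ?_
  have := Real.pi_le_four
  have h3 : 0 ≤ a * r ^ 2 := by positivity
  simp only [NNReal.coe_real_pi]
  nlinarith

/-- The estimate at one scale. -/
lemma est (hM : St_M) (hP : St_POI) (hO : St_OSC) {h : ℂ → ℂ} {G : ℂ → ℂ →L[ℝ] ℂ}
    (hc : Continuous h) (ho : IsOpenMap h) {z y : ℂ} {t κ η M ε : ℝ} (A : ℂ →L[ℝ] ℂ)
    (ht : ‖y - z‖ = t) (t0 : 0 < t) (k0 : 0 < κ) (e0 : 0 < η) (e1 : η < 1) (ε0 : 0 ≤ ε)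
    (M0 : 0 ≤ M) (hW : Wk (ball z (3 * t)) h G)
    (h1 : ∫⁻ x in ball z (3 * t), ‖G x - A‖ₑ ≤ ENNReal.ofReal (ε * t ^ 2))
    (h2 : ∫⁻ x in ball z (3 * t), ‖G x‖ₑ ^ 2 ≤ ENNReal.ofReal (M * t ^ 2))
    (h3 : 7 * M < κ ^ 2 * Real.log η⁻¹) :
    ‖h y - h z - A (y - z)‖ ≤ (4 * κ + 2 * ‖A‖ * η + 2 * ε / η ^ 2) * t := by
  have sub : ∀ x, ‖x - z‖ ≤ t → closedBall x t ⊆ ball z (3 * t) := fun x hx =>
    closedBall_subset_ball' (by rw [dist_eq_norm]; linarith)
  have et : η * t < t := by nlinarith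
  have osc : ∀ x, ‖x - z‖ ≤ t → ∀ a ∈ ball x (η * t),
      ‖(h a - A a) - (h x - A x)‖ ≤ 2 * (κ * t) + ‖A‖ * (η * t) := fun x hx a ha => by
    have h4 := hO h x (η * t) t (κ * t) (ENNReal.ofReal (M * t ^ 2)) hc ho (by positivity) et
      (by positivity)
      ((hM.1 _ h G isOpen_ball hW _ (sub x hx) (isCompact_closedBall _ _)).mono subset_rfl h2)
      (by
        rw [← ENNReal.ofReal_ofNat, ← ENNReal.ofReal_mul (by norm_num),
          ENNReal.ofReal_lt_ofReal_iff_of_nonneg (by positivity),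
          show t / (η * t) = η⁻¹ by field_simp]
        nlinarith [sq_pos_of_pos t0]) a (ball_subset_closedBall ha)
    have h5 : ‖A (a - x)‖ ≤ ‖A‖ * (η * t) :=
      (A.le_opNorm _).trans (by gcongr; exact (mem_ball_iff_norm.1 ha).le)
    rw [show (h a - A a) - (h x - A x) = (h a - h x) - A (a - x) by rw [map_sub]; ring]
    exact (norm_sub_le _ _).trans (add_le_add h4 h5)
  have := hP _ _ _ z y (η * t) _ (ε * t ^ 2) isOpen_ball
    (hW.sub (wk_clm A measure_ball_lt_top)) (by positivity) (by positivity)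
    (fun p hp => (closedBall_subset_closedBall et.le).trans (sub p
      (mem_closedBall_iff_norm.1 ((convex_closedBall z t).segment_subset
        (mem_closedBall_self t0.le) (mem_closedBall_iff_norm.2 ht.le) hp))))
    h1 (osc z (by simpa using t0.le)) (osc y ht.le)
  rw [show h y - h z - A (y - z) = (h y - A y) - (h z - A z) by rw [map_sub]; ring]
  refine this.trans_eq ?_
  rw [ht]
  field_simp
  ring

end AE

open AE

theorem stAE (hM : St_M) (hP : St_POI) (hO : St_OSC) : St_AE := by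
  intro O h G oO hc ho hW
  have mO := oO.measurableSet
  have m1 : AEStronglyMeasurable (O.indicator G) volume :=
    (aestronglyMeasurable_indicator_iff mO).2 hW.meas
  have f1 : ∫⁻ z, ‖O.indicator G z‖ₑ ^ 2 < ∞ := by
    refine lt_of_eq_of_lt ?_ hW.fin
    rw [← lintegral_indicator mO]
    refine lintegral_congr fun z => ?_
    by_cases hz : z ∈ O
    · simp [hz]
    · rw [indicator_of_notMem hz, indicator_of_notMem hz, ← ofReal_norm, norm_zero]
      simp
  have l1 : LocallyIntegrable (O.indicator G) volume := by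
    refine MemLp.locallyIntegrable (p := 2) ⟨m1, ?_⟩ one_le_two
    rw [eLpNorm_lt_top_iff_lintegral_rpow_enorm_lt_top two_ne_zero ENNReal.ofNat_ne_top]
    simpa using f1
  filter_upwards [(Besicovitch.vitaliFamily (volume : Measure ℂ)).ae_tendsto_lintegral_enorm_sub_div l1,
    (Besicovitch.vitaliFamily (volume : Measure ℂ)).ae_tendsto_lintegral_div
      (m1.enorm.pow_const 2) f1.ne] with z h1 h2 hz
  rw [indicator_of_mem hz] at h1 h2
  set A := G z
  refine HasFDerivAt.of_isLittleO (Asymptotics.isLittleO_iff.2 fun c hc0 => ?_)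
  set M := 36 * (‖A‖ ^ 2 + 1)
  have M0 : 0 ≤ M := by positivity
  obtain ⟨η, ⟨⟨e0, e1⟩, e2⟩, e3⟩ : ∃ η : ℝ, ((0 < η ∧ η < 1) ∧ η < c / (6 * (‖A‖ + 1))) ∧
      7 * M / (c / 12) ^ 2 < Real.log η⁻¹ := by
    have t1 : Tendsto (fun η : ℝ => Real.log η⁻¹) (𝓝[>] 0) atTop :=
      Real.tendsto_log_atTop.comp tendsto_inv_nhdsGT_zero
    have t2 : ∀ᶠ η in 𝓝[>] (0 : ℝ), 0 < η ∧ η < 1 := Ioo_mem_nhdsGT one_pos
    exact ((t2.and (mem_nhdsWithin_of_mem_nhds (gt_mem_nhds (by positivity)))).and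
      (t1.eventually_gt_atTop _)).exists
  have s1 := small (a := c * η ^ 2 / 216) h1 (ENNReal.ofReal_pos.2 (by positivity))
  have s2 := small (a := ‖A‖ ^ 2 + 1) h2 (by
    rw [← ofReal_norm, ← ENNReal.ofReal_pow (norm_nonneg _),
      ENNReal.ofReal_lt_ofReal_iff_of_nonneg (by positivity)]
    linarith)
  obtain ⟨ρ, ρ0, hρ⟩ := Metric.isOpen_iff.1 oO z hz
  obtain ⟨u, u0, hu⟩ := (mem_nhdsGT_iff_exists_Ioo_subset).1
    ((s1.and s2).and (Ioo_mem_nhdsGT ρ0 : ∀ᶠ r in 𝓝[>] (0 : ℝ), r ∈ Ioo 0 ρ))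
  filter_upwards [ball_mem_nhds z (show 0 < u / 3 from div_pos u0 three_pos)] with y hy
  rcases (norm_nonneg (y - z)).eq_or_lt with t0 | t0
  · simp [sub_eq_zero.1 (norm_eq_zero.1 t0.symm)]
  set t := ‖y - z‖ with ht
  obtain ⟨⟨a1, a2⟩, -, a3⟩ := hu (show 3 * t ∈ Ioo 0 u from
    ⟨by positivity, by have := mem_ball_iff_norm.1 hy; linarith⟩)
  have sub : ball z (3 * t) ⊆ O := (ball_subset_ball a3.le).trans hρ
  have := est hM hP hO hc ho (κ := c / 12) (M := M) (ε := c * η ^ 2 / 6) A ht.symm t0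
    (by positivity) e0 e1 (by positivity) M0 (hW.mono sub) ?_ ?_
    (by rwa [div_lt_iff₀' (by positivity)] at e3)
  · refine this.trans (mul_le_mul_of_nonneg_right ?_ t0.le)
    have h4 : 2 * (c * η ^ 2 / 6) / η ^ 2 = c / 3 := by field_simp; ring
    rw [lt_div_iff₀ (by positivity)] at e2
    rw [h4]
    nlinarith
  · refine le_trans ?_ (a1.trans_eq (congrArg _ (by ring)))
    refine le_trans (le_of_eq ?_) (lintegral_mono_set ball_subset_closedBall)
    exact setLIntegral_congr_fun measurableSet_ball fun x hx => by simp [sub hx]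
  · refine le_trans ?_ (a2.trans_eq (congrArg _ (by simp only [M]; ring)))
    refine le_trans (le_of_eq ?_) (lintegral_mono_set ball_subset_closedBall)
    exact setLIntegral_congr_fun measurableSet_ball fun x hx => by simp [sub hx]

theorem stDIFF (hA : St_AE) (hR : St_R) (hP : St_POI) (hI : St_INV) (hQ : St_QC) : St_DIFF := by
  intro K h H N hN
  obtain ⟨R, hR'⟩ := ((isCompact_closedBall (0 : ℂ) 1).image h.continuous).isBounded.subset_ball 0
  obtain ⟨G, hW, -⟩ := hR _ h _ isOpen_ball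
    (hQ.2.2.2.2 K h 1 R H.1 fun z hz => hR' ⟨z, ball_subset_closedBall hz, rfl⟩)
    (ENNReal.mul_lt_top ENNReal.coe_lt_top measure_ball_lt_top)
  by_contra hn
  have h0 : ∀ᵐ z, z ∈ ball (0 : ℂ) 1 → G z = 0 := by
    filter_upwards [hA _ h G isOpen_ball h.continuous h.isOpenMap hW,
      (measure_eq_zero_iff_ae_notMem.1 hN)] with z h1 h2 hz
    by_contra e
    exact hn ⟨z, h2, (LinearEquiv.ofInjectiveEndo (G z : ℂ →ₗ[ℝ] ℂ)
      (hI K h _ z H (h1 hz) e)).toContinuousLinearEquiv, h1 hz⟩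
  have h1 : ∫⁻ z in ball (0 : ℂ) 1, ‖G z‖ₑ ≤ ENNReal.ofReal 0 := by
    rw [lintegral_congr_ae (g := fun _ => 0), lintegral_zero]
    · exact zero_le
    · filter_upwards [(ae_restrict_iff' measurableSet_ball).2 h0] with z hz
      rw [hz, ← ofReal_norm, norm_zero, ENNReal.ofReal_zero]
  have key : ∀ ω > 0, ‖h (1 / 2) - h 0‖ ≤ 2 * ω := fun ω hω => by
    obtain ⟨δ₁, d1, c1⟩ := Metric.continuous_iff.1 h.continuous 0 ω hω
    obtain ⟨δ₂, d2, c2⟩ := Metric.continuous_iff.1 h.continuous (1 / 2) ω hω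
    have := hP _ h G 0 (1 / 2) (min (1 / 4) (min δ₁ δ₂)) ω 0 isOpen_ball hW (by positivity) le_rfl
      (fun p hp => closedBall_subset_ball' ?_) h1
      (fun a ha => (dist_eq_norm (h a) _ ▸ c1 a (ha.trans_le
        ((min_le_right _ _).trans (min_le_left _ _)))).le)
      (fun a ha => (dist_eq_norm (h a) _ ▸ c2 a (ha.trans_le
        ((min_le_right _ _).trans (min_le_right _ _)))).le)
    · simpa using this
    · have h2 := mem_closedBall.1 ((convex_closedBall (0 : ℂ) (1 / 2)).segment_subset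
        (mem_closedBall_self (by norm_num)) (by simp) hp)
      have h3 := min_le_left (1 / 4 : ℝ) (min δ₁ δ₂)
      linarith
  have h2 : h (1 / 2) = h 0 := sub_eq_zero.1 (norm_le_zero_iff.1
    (le_of_forall_pos_le_add fun ε hε => by linarith [key (ε / 2) (half_pos hε)]))
  simpa using h.injective h2

end Pool.Agent.Lib.THU.EC
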