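import Pool.Agent.Lib.THU.EC.Basic

set_option autoImplicit false

/-!
Transfer of relaxed energies, elementary properties of quasiconformal maps.
-/

namespace Pool.Agent.Lib.THU.EC

open MeasureTheory Set Metric Filter Topology
open scoped ENNReal NNReal ComplexConjugate

theorem stTR (hC : St_CV) (hP : St_PT) : St_TR := by
  refine ⟨fun D K f hi hf hd O u c _ hu Q hQ hK ε hε => ?_,
    fun D D' K K' f g hD hg H H' O u c hO hu => ?_,
    fun D P K f g hD hF hf e H O u c hO hu => ?_,
    fun ι l _ K F f hf H hl O u c hO hu Q hQ hK => ?_⟩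
  · have hD : Q ⊆ D := fun z hz => (hQ hz).1
    have hK1 : (0 : ℝ) < K + 1 := by positivity
    obtain ⟨w, h1, h2, h3⟩ := hu (f '' Q) (by rintro _ ⟨z, hz, rfl⟩; exact (hQ hz).2)
      (hK.image_of_continuousOn fun z hz => (hf z (hD hz)).continuousAt.continuousWithinAt)
      (ε / (K + 1)) (by positivity)
    refine ⟨w ∘ f, fun z hz => (h1 _ (mem_image_of_mem f hz)).comp z (hf z (hD hz)),
      fun z hz => (h2 _ (mem_image_of_mem f hz)).trans (div_le_self hε.le (by simp)), ?_⟩
    refine (hC K f w Q hK.measurableSet (hi.mono hD)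
      (fun z hz => (hf z (hD hz)).differentiableAt one_ne_zero)
      (fun z hz => (h1 _ (mem_image_of_mem f hz)).differentiableAt one_ne_zero)
      fun z hz => hd z (hD hz)).trans ((mul_le_mul_right h3 _).trans ?_)
    rw [mul_add, ← ENNReal.ofReal_coe_nnreal (p := K), ← ENNReal.ofReal_mul K.coe_nonneg]
    gcongr
    rw [← mul_div_assoc, div_le_iff₀ hK1]
    nlinarith
  · exact (H _ _ _ (hg.isOpen_inter_preimage hD hO) (H' O u c hO hu)).mono
      (fun z hz => ⟨hz.1.1, hz.1.2, hz.2⟩) (by rw [ENNReal.coe_mul, mul_assoc])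
  · refine (hP _ P _ _ (hf.isOpen_inter_preimage hD hO) hF
      ((hu.cont hO).comp (hf.mono inter_subset_left) fun z hz => hz.2)
      ((H.congr e.symm O u c hO hu).mono (fun z hz => ⟨⟨hz.1.1, hz.2⟩, hz.1.2⟩) le_rfl)).mono
      subset_rfl ?_
    rw [ENNReal.coe_mul, mul_assoc]
    rfl
  · have hc := hK.image hf
    obtain ⟨d, hd, hs⟩ := hc.exists_cthickening_subset_open hO
      (by rintro _ ⟨z, hz, rfl⟩; exact (hQ hz).2)
    have uc := (hc.cthickening (r := d)).uniformContinuousOn_of_continuous ((hu.cont hO).mono hs)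
    refine AppQ.lim fun ε hε => ?_
    obtain ⟨δ, hδ, h1⟩ := Metric.uniformContinuousOn_iff.1 uc ε hε
    obtain ⟨i, hi⟩ := (Metric.tendstoUniformlyOn_iff.1
      (tendstoLocallyUniformly_iff_forall_isCompact.1 hl Q hK) _ (lt_min hδ hd)).exists
    have m : ∀ z ∈ Q, F i z ∈ cthickening d (f '' Q) := fun z hz =>
      mem_cthickening_of_dist_le _ (f z) _ _ (mem_image_of_mem f hz)
        (dist_comm (f z) _ ▸ ((hi z hz).trans_le (min_le_right _ _)).le)
    refine ⟨u ∘ F i, fun z hz => ?_,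
      (H i O u c hO hu Q (fun z hz => ⟨trivial, hs (m z hz)⟩) hK).mono subset_rfl le_self_add⟩
    rw [← dist_eq_norm, dist_comm]
    exact (h1 _ (self_subset_cthickening _ (mem_image_of_mem f hz)) _ (m z hz)
      ((hi z hz).trans_le (min_le_left _ _))).le

theorem stQC (hT : St_TR) (hD : St_DIST) : St_QC := by
  have aff : ∀ (f : ℂ → ℂ) (a b : ℂ), Function.Injective f → (∀ z, f z = a * z + b) →
      TrOn univ 1 f := fun f a b hi e => by
    obtain rfl : f = fun z => a * z + b := funext e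
    exact hT.1 _ _ _ hi.injOn (fun z _ => by fun_prop) (hD.1 _ _ fun z _ => by fun_prop)
  have cj : TrOn univ 1 fun z => conj z := hT.1 _ _ _ (star_injective (R := ℂ)).injOn
    (fun z _ => Complex.conjCLE.contDiff.contDiffAt) (hD.2.1 _)
  refine ⟨fun K K' h h' H H' => ⟨?_, ?_⟩, fun K h h1 h2 h3 => ⟨?_, ?_⟩,
    fun h a b e => ⟨aff h a b h.injective e, ?_⟩, fun h e => ⟨?_, ?_⟩, fun K h R R' H m => ?_⟩
  · exact (hT.2.1 _ _ _ _ _ _ isOpen_univ h'.continuous.continuousOn H.1 H'.1).mono
      (by simp) le_rfl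
  · exact (hT.2.1 _ _ _ _ _ _ isOpen_univ h.symm.continuous.continuousOn H'.2 H.2).mono
      (by simp) (mul_comm _ _).le
  · exact hT.1 _ _ _ h.injective.injOn (fun z _ => h1.contDiffAt) h3
  · have d1 := h1.differentiable one_ne_zero
    have h4 : ContDiff ℝ 1 h.symm := h.contDiff_symm
      (f₀' := fun a => (fderiv ℝ h a).toContinuousLinearEquivOfDetNeZero (h2 a))
      (fun a => by simpa using (d1 a).hasFDerivAt) h1
    refine hT.1 _ _ _ h.symm.injective.injOn (fun z _ => h4.contDiffAt) fun z _ => ?_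
    obtain ⟨x, rfl⟩ := h.surjective z
    refine hD.2.2.2.1 K (fderiv ℝ h x) _ (fun e => ?_) (h3 x trivial)
    have := fderiv_comp x (h4.differentiable one_ne_zero (h x)) (d1 x)
    rw [h.symm_comp_self, fderiv_id] at this
    exact (congrArg (fun A : ℂ →L[ℝ] ℂ => A e) this).symm
  · have ha : a ≠ 0 := by
      rintro rfl
      exact zero_ne_one (h.injective (a₁ := 0) (a₂ := 1) (by simp [e]))
    refine aff _ a⁻¹ (-(a⁻¹ * b)) h.symm.injective fun z => h.symm_apply_eq.2 ?_
    rw [e]
    field_simp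
    ring
  · exact cj.congr fun z _ => (e z).symm
  · exact cj.congr fun z _ => (h.symm_apply_eq.2 (by simp [e])).symm
  · exact (H _ _ _ isOpen_ball (app_id (ball 0 R'))).mono (fun z hz => ⟨trivial, m hz⟩) le_rfl

end Pool.Agent.Lib.THU.EC
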